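import Mathlib

/-!
Definitions: deterministic protocols, the real rank of a communication matrix, and the group of
colour-preserving permutations of a vertex set.
-/

set_option autoImplicit false

namespace Pool.Agent.Lib_helper78.LR

/-- A deterministic two-party protocol for inputs `x : X` (Alice) and `y : Y` (Bob): a binary tree
in which each internal node is owned by one player, the bit sent at the node depends only on the
input of that player and on the node, and each leaf carries the output. -/
inductive Protocol (X Y : Type) : Type
  | leaf (out : Bool) : Protocol X Y
  | alice (bit : X → Bool) (t₀ t₁ : Protocol X Y) : Protocol X Y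
  | bob (bit : Y → Bool) (t₀ t₁ : Protocol X Y) : Protocol X Y

namespace Protocol

/-- The output of the protocol on the input `(x, y)`. -/
def eval {X Y : Type} : Protocol X Y → X → Y → Bool
  | leaf b, _, _ => b
  | alice s t₀ t₁, x, y => if s x then t₁.eval x y else t₀.eval x y
  | bob s t₀ t₁, x, y => if s y then t₁.eval x y else t₀.eval x y

/-- The cost of the protocol: the depth of the tree, i.e. the maximal number of bits exchanged. -/
def cost {X Y : Type} : Protocol X Y → ℕ
  | leaf _ => 0
  | alice _ t₀ t₁ => max t₀.cost t₁.cost + 1
  | bob _ t₀ t₁ => max t₀.cost t₁.cost + 1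

end Protocol

/-- The rank over `ℝ` of the communication matrix `[F x y]`. -/
noncomputable def realRank {X Y : Type} [Fintype Y] (F : X → Y → Bool) : ℕ :=
  (Matrix.of fun (x : X) (y : Y) => if F x y then (1 : ℝ) else 0).rank

/-- The group of all permutations of the vertex set `V` that preserve the colouring `col`. -/
def colPerm {V κ : Type} (col : V → κ) : Subgroup (Equiv.Perm V) where
  carrier := {γ | ∀ v, col (γ v) = col v}
  mul_mem' := by
    intro γ δ hγ hδ v
    rw [Equiv.Perm.mul_apply, hγ, hδ]
  one_mem' := by intro v; rfl
  inv_mem' := by
    intro γ hγ v
    have h := hγ (γ⁻¹ v)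
    rw [← h]
    congr 1
    exact γ.apply_symm_apply v

end Pool.Agent.Lib_helper78.LR
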