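import Pool.Agent.Lib_helper78.LR.Blocks
import Pool.Agent.Lib_helper78.LR.Defs

/-!
Colour classes, orbits and the protocol.
-/

set_option autoImplicit false
set_option linter.unusedSectionVars false

namespace Pool.Agent.Lib_helper78.LR

open Finset

/-! ### Protocols -/

/-- `F` has a protocol of cost at most `c` on the inputs satisfying `R` -/
def HasP {X Y : Type} (R : X → Y → Prop) (F : X → Y → Bool) (c : ℕ) : Prop :=
  ∃ π : Protocol X Y, π.cost ≤ c ∧ ∀ x y, R x y → π.eval x y = F x y

theorem HasP.alice {X Y : Type} {R : X → Y → Prop} {F : X → Y → Bool} {c : ℕ} (s : X → Bool)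
    (h : ∀ b, HasP (fun x y => R x y ∧ s x = b) F c) : HasP R F (c + 1) := by
  obtain ⟨π₀, h01, h02⟩ := h false
  obtain ⟨π₁, h11, h12⟩ := h true
  refine ⟨Protocol.alice s π₀ π₁, by simp [Protocol.cost, h01, h11], fun x y hxy => ?_⟩
  by_cases hs : s x = true
  · simp only [Protocol.eval, hs, if_true]; exact h12 x y ⟨hxy, hs⟩
  · simp only [Bool.not_eq_true] at hs
    simp only [Protocol.eval, hs]; exact h02 x y ⟨hxy, hs⟩

theorem HasP.bob {X Y : Type} {R : X → Y → Prop} {F : X → Y → Bool} {c : ℕ} (s : Y → Bool)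
    (h : ∀ b, HasP (fun x y => R x y ∧ s y = b) F c) : HasP R F (c + 1) := by
  obtain ⟨π₀, h01, h02⟩ := h false
  obtain ⟨π₁, h11, h12⟩ := h true
  refine ⟨Protocol.bob s π₀ π₁, by simp [Protocol.cost, h01, h11], fun x y hxy => ?_⟩
  by_cases hs : s y = true
  · simp only [Protocol.eval, hs, if_true]; exact h12 x y ⟨hxy, hs⟩
  · simp only [Bool.not_eq_true] at hs
    simp only [Protocol.eval, hs]; exact h02 x y ⟨hxy, hs⟩

/-- Alice sends the values of finitely many bits. -/
theorem HasP.send {X Y : Type} {F : X → Y → Bool} {c : ℕ} (m : ℕ) :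
    ∀ (R : X → Y → Prop) (lab : X → Fin m → Bool),
      (∀ l : Fin m → Bool, HasP (fun x y => R x y ∧ lab x = l) F c) → HasP R F (c + m) := by
  induction m with
  | zero =>
    intro R lab h
    obtain ⟨π, h1, h2⟩ := h (fun i => i.elim0)
    exact ⟨π, h1, fun x y hxy => h2 x y ⟨hxy, funext fun i => i.elim0⟩⟩
  | succ m ih =>
    intro R lab h
    rw [← add_assoc]
    refine HasP.alice (fun x => lab x 0) fun b => ?_
    refine ih _ (fun x i => lab x i.succ) fun l => ?_
    obtain ⟨π, h1, h2⟩ := h (Fin.cons b l)
    refine ⟨π, h1, fun x y hxy => h2 x y ⟨hxy.1.1, ?_⟩⟩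
    funext i
    refine Fin.cases ?_ (fun i => ?_) i
    · exact hxy.1.2
    · rw [Fin.cons_succ]; exact congrFun hxy.2 i

/-- A function of `x + y` that depends on `x` only through `m` bits. -/
theorem protocol_of_label {X Y : Type} [Nonempty X] (F : X → Y → Bool) (m : ℕ)
    (lab : X → Fin m → Bool) (h : ∀ x x', lab x = lab x' → ∀ y, F x y = F x' y) :
    ∃ π : Protocol X Y, π.cost ≤ 1 + m ∧ ∀ x y, π.eval x y = F x y := by
  classical
  obtain ⟨π, h1, h2⟩ := HasP.send (F := F) (c := 1) m (fun _ _ => True) lab (by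
    intro l
    by_cases hl : ∃ x, lab x = l
    · obtain ⟨x₀, hx₀⟩ := hl
      have h0 : HasP (fun x y => (True ∧ lab x = l)) F (0 + 1) := by
        refine HasP.bob (fun y => F x₀ y) fun b => ⟨Protocol.leaf b, le_rfl, ?_⟩
        rintro x y ⟨⟨_, hx⟩, hy⟩
        simp only [Protocol.eval]
        rw [← hy]
        exact h x₀ x (hx₀.trans hx.symm) y
      simpa using h0
    · refine ⟨Protocol.leaf true, Nat.zero_le _, ?_⟩
      rintro x y ⟨_, hx⟩
      exact absurd ⟨x, hx⟩ hl)
  exact ⟨π, h1, fun x y => h2 x y trivial⟩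

/-! ### Colour classes -/

variable {V κ : Type} [Fintype V] [DecidableEq V] [DecidableEq κ] (col : V → κ)
variable {Ω : Type} [Fintype Ω] [DecidableEq Ω] [MulAction (colPerm col) Ω]

/-- extension of a permutation of one colour class -/
def classHom (c : κ) : Equiv.Perm {v // col v = c} →* colPerm col :=
  (Equiv.Perm.ofSubtype (p := fun v => col v = c)).codRestrict (colPerm col) (by
    intro σ v
    by_cases h : col v = c
    · rw [Equiv.Perm.ofSubtype_apply_of_mem σ h]
      exact (σ ⟨v, h⟩).2.trans h.symm
    · rw [Equiv.Perm.ofSubtype_apply_of_not_mem σ h])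

theorem classHom_of_ne (c : κ) (σ : Equiv.Perm {v // col v = c}) (v : V) (h : ¬ col v = c) :
    (classHom col c σ : Equiv.Perm V) v = v :=
  Equiv.Perm.ofSubtype_apply_of_not_mem σ h

theorem classHom_of_eq (c : κ) (σ : Equiv.Perm {v // col v = c}) (v : V) (h : col v = c) :
    (classHom col c σ : Equiv.Perm V) v = σ ⟨v, h⟩ :=
  Equiv.Perm.ofSubtype_apply_of_mem σ h

/-- the translations that leave `f` invariant -/
def Tr (f : G Ω → ℝ) (t : G Ω) : Prop := ∀ x, f (x + t) = f x

theorem Tr.add {f : G Ω → ℝ} {s t : G Ω} (hs : Tr f s) (ht : Tr f t) : Tr f (s + t) := by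
  intro x
  rw [← add_assoc, ht, hs]

theorem Tr.zero (f : G Ω → ℝ) : Tr f 0 := fun x => by rw [add_zero]

theorem Tr.sum {ι : Type} {f : G Ω → ℝ} (s : Finset ι) (t : ι → G Ω) (h : ∀ i ∈ s, Tr f (t i)) :
    Tr f (∑ i ∈ s, t i) := by
  classical
  induction s using Finset.induction_on with
  | empty => simpa using Tr.zero f
  | insert i s hi ih =>
    rw [Finset.sum_insert hi]
    exact (h i (Finset.mem_insert_self i s)).add (ih (fun j hj => h j (Finset.mem_insert_of_mem hj)))

theorem class_translation (f : G Ω → ℝ) (h01 : ∀ x, f x = 0 ∨ f x = 1)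
    (hf : ∀ (γ : colPerm col) (x : G Ω), f (act γ x) = f x) (M : ℕ) (hM : (M + 1).Prime) (n : ℕ)
    (hMn : M = 2 * n) (hs : (spec f).card < 2 ^ M) (k : ℕ) (A : Ω → Finset V)
    (hA : ∀ ω, (A ω).card ≤ k ∧
      ∀ γ : colPerm col, (∀ v ∈ A ω, (γ : Equiv.Perm V) v = v) → γ • ω = ω) (d : ℕ)
    (hd : (spec f).card ≤ 2 ^ d) (c : κ)
    (hC : k * (4 * M + d + 5) ≤ Fintype.card {v // col v = c}) (σ : Equiv.Perm {v // col v = c})
    (ω : Ω) : Tr f (e ω + e (classHom col c σ • ω)) := by
  let _ : MulAction (Equiv.Perm {v // col v = c}) Ω := MulAction.compHom Ω (classHom col c)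
  have hsm : ∀ (τ : Equiv.Perm {v // col v = c}) (ω : Ω), τ • ω = classHom col c τ • ω :=
    fun τ ω => rfl
  intro x
  have key := translation_invariant (C := {v // col v = c}) f h01 (fun τ x => by
    have h1 : act τ x = act (classHom col c τ) x := by
      funext ω
      simp only [act]
      rw [hsm, map_inv]
    rw [h1]; exact hf _ _) M hM n hMn hs k (fun ω => (A ω).subtype (fun v => col v = c))
    (fun ω => ⟨by
      refine le_trans ?_ (hA ω).1
      rw [Finset.card_subtype]
      exact Finset.card_filter_le _ _, by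
      intro τ hτ
      rw [hsm]
      apply (hA ω).2
      intro v hv
      by_cases h : col v = c
      · rw [classHom_of_eq col c τ v h]
        have := hτ ⟨v, h⟩ (by rw [Finset.mem_subtype]; exact hv)
        exact congrArg Subtype.val this
      · exact classHom_of_ne col c τ v h⟩) d hC hd x ω σ
  exact key

/-- the part of a colour-preserving permutation on the vertices whose colour satisfies `p` -/
def part (g : colPerm col) (p : κ → Prop) [DecidablePred p] : colPerm col :=
  ⟨Equiv.Perm.ofSubtype (p := fun v => p (col v))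
    ((g : Equiv.Perm V).subtypePerm (fun v => by rw [g.2 v])), by
    intro v
    by_cases h : p (col v)
    · rw [Equiv.Perm.ofSubtype_apply_of_mem (p := fun v => p (col v)) (a := v) _ h]
      exact g.2 v
    · rw [Equiv.Perm.ofSubtype_apply_of_not_mem (p := fun v => p (col v)) (a := v) _ h]⟩

theorem part_of_pos (g : colPerm col) (p : κ → Prop) [DecidablePred p] (v : V) (h : p (col v)) :
    (part col g p : Equiv.Perm V) v = (g : Equiv.Perm V) v := by
  exact Equiv.Perm.ofSubtype_apply_of_mem (p := fun v => p (col v)) (a := v) _ h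

theorem part_of_neg (g : colPerm col) (p : κ → Prop) [DecidablePred p] (v : V)
    (h : ¬ p (col v)) : (part col g p : Equiv.Perm V) v = v := by
  exact Equiv.Perm.ofSubtype_apply_of_not_mem (p := fun v => p (col v)) (a := v) _ h

theorem colPerm_ext {g h : colPerm col} (H : ∀ v, (g : Equiv.Perm V) v = (h : Equiv.Perm V) v) :
    g = h := Subtype.ext (Equiv.ext H)

theorem big_translation (f : G Ω → ℝ) (h01 : ∀ x, f x = 0 ∨ f x = 1)
    (hf : ∀ (γ : colPerm col) (x : G Ω), f (act γ x) = f x) (M : ℕ) (hM : (M + 1).Prime) (n : ℕ)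
    (hMn : M = 2 * n) (hs : (spec f).card < 2 ^ M) (k : ℕ) (A : Ω → Finset V)
    (hA : ∀ ω, (A ω).card ≤ k ∧
      ∀ γ : colPerm col, (∀ v ∈ A ω, (γ : Equiv.Perm V) v = v) → γ • ω = ω) (d : ℕ)
    (hd : (spec f).card ≤ 2 ^ d) (g : colPerm col)
    (hg : ∀ v, Fintype.card {w // col w = col v} < k * (4 * M + d + 5) → (g : Equiv.Perm V) v = v)
    (ω : Ω) : Tr f (e ω + e (g • ω)) := by
  classical
  have hstep : ∀ S : Finset κ,
      (∀ c ∈ S, k * (4 * M + d + 5) ≤ Fintype.card {v // col v = c}) →
      ∀ ω : Ω, Tr f (e ω + e (part col g (fun c => c ∈ S) • ω)) := by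
    intro S
    induction S using Finset.induction_on with
    | empty =>
      intro _ ω
      have : part col g (fun c => c ∈ (∅ : Finset κ)) = 1 := by
        apply colPerm_ext
        intro v
        rw [part_of_neg col g _ v (by simp)]
        rfl
      rw [this, one_smul, add_self]
      exact Tr.zero f
    | insert c S hc ih =>
      intro hS ω
      let σ : Equiv.Perm {v // col v = c} :=
        (g : Equiv.Perm V).subtypePerm (fun v => by rw [g.2 v])
      have hcomp : part col g (fun c' => c' ∈ insert c S) =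
          classHom col c σ * part col g (fun c' => c' ∈ S) := by
        apply colPerm_ext
        intro v
        rw [Subgroup.coe_mul, Equiv.Perm.mul_apply]
        by_cases h1 : col v ∈ S
        · have h2 : col v ≠ c := fun h => hc (h ▸ h1)
          rw [part_of_pos col g _ v (Finset.mem_insert_of_mem h1), part_of_pos col g _ v h1,
            classHom_of_ne col c σ _ (by rw [g.2 v]; exact h2)]
        · rw [part_of_neg col g _ v h1]
          by_cases h2 : col v = c
          · rw [part_of_pos col g _ v (by rw [h2]; exact Finset.mem_insert_self c S),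
              classHom_of_eq col c σ v h2]
            rfl
          · rw [part_of_neg col g _ v (by simp [h1, h2]), classHom_of_ne col c σ v h2]
      rw [hcomp, mul_smul]
      have e1 := ih (fun c' hc' => hS c' (Finset.mem_insert_of_mem hc')) ω
      have e2 := class_translation col f h01 hf M hM n hMn hs k A hA d hd c
        (hS c (Finset.mem_insert_self c S)) σ (part col g (fun c => c ∈ S) • ω)
      have e3 := e1.add e2
      have h4 : e ω + e (part col g (fun c => c ∈ S) • ω) +
          (e (part col g (fun c => c ∈ S) • ω) +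
            e (classHom col c σ • part col g (fun c => c ∈ S) • ω)) =
          (e ω + e (classHom col c σ • part col g (fun c => c ∈ S) • ω) : G Ω) := by
        have h5 := add_self (e (part col g (fun c => c ∈ S) • ω) : G Ω)
        calc _ = (e ω + e (classHom col c σ • part col g (fun c => c ∈ S) • ω) : G Ω) +
              (e (part col g (fun c => c ∈ S) • ω) + e (part col g (fun c => c ∈ S) • ω)) := by abel
          _ = _ := by rw [h5, add_zero]
      rw [h4] at e3
      exact e3
  let S : Finset κ := (univ.image col).filter (fun c =>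
    k * (4 * M + d + 5) ≤ Fintype.card {v // col v = c})
  have hS := hstep S (fun c hc => (Finset.mem_filter.mp hc).2) ω
  have hgS : part col g (fun c => c ∈ S) = g := by
    apply colPerm_ext
    intro v
    by_cases h : col v ∈ S
    · exact part_of_pos col g _ v h
    · rw [part_of_neg col g _ v h]
      refine (hg v ?_).symm
      by_contra hcon
      apply h
      rw [Finset.mem_filter]
      exact ⟨Finset.mem_image_of_mem _ (Finset.mem_univ v), by omega⟩
  rw [hgS] at hS
  exact hS

end Pool.Agent.Lib_helper78.LR
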