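import Pool.Agent.Lib_helper78.LR.Merge

/-!
Moving one coordinate by a permutation of the vertices.
-/

set_option autoImplicit false
set_option linter.unusedSectionVars false

namespace Pool.Agent.Lib_helper78.LR

open Finset

theorem copies_of_local {Ω : Type} [Fintype Ω] [DecidableEq Ω] {Γ : Type} [Group Γ]
    [MulAction Γ Ω] {J : Type} [Fintype J] [DecidableEq J] (ρ : Equiv.Perm J →* Γ) (j0 : J)
    (a0 : G Ω) (h : ∀ π : Equiv.Perm J, π j0 = j0 → act (ρ π) a0 = a0) :
    Copies ρ (fun j => act (ρ (Equiv.swap j0 j)) a0) := by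
  intro π j
  have h1 : π * Equiv.swap j0 j = Equiv.swap j0 (π j) * (Equiv.swap j0 (π j) * π * Equiv.swap j0 j) := by
    rw [← mul_assoc, ← mul_assoc, Equiv.swap_mul_self, one_mul]
  have h2 : (Equiv.swap j0 (π j) * π * Equiv.swap j0 j) j0 = j0 := by
    simp [Equiv.Perm.mul_apply]
  change act (ρ π) (act (ρ (Equiv.swap j0 j)) a0) = act (ρ (Equiv.swap j0 (π j))) a0
  rw [← act_mul, ← map_mul, h1, map_mul, act_mul, h _ h2]

theorem act_eq_self {Ω : Type} [Fintype Ω] [DecidableEq Ω] {Γ : Type} [Group Γ]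
    [MulAction Γ Ω] (γ : Γ) (x : G Ω) (h : ∀ ω, x ω ≠ 0 → γ • ω = ω) : act γ x = x := by
  funext ω
  simp only [act]
  by_cases h1 : x ω = 0
  · by_contra hne
    have h2 : x (γ⁻¹ • ω) ≠ 0 := by
      intro h3; exact hne (h3.trans h1.symm)
    have h4 := h _ h2
    rw [smul_inv_smul] at h4
    rw [← h4] at h2
    exact h2 h1
  · have h2 := h _ h1
    have h3 : γ⁻¹ • ω = ω := by
      conv_lhs => rw [← h2]
      rw [inv_smul_smul]
    rw [h3]

variable {C : Type} [Fintype C] [DecidableEq C] {Ω : Type} [Fintype Ω] [DecidableEq Ω]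
  [MulAction (Equiv.Perm C) Ω]

/-- `A` supports `ω` -/
def Supp (A : Finset C) (ω : Ω) : Prop := ∀ γ : Equiv.Perm C, (∀ c ∈ A, γ c = c) → γ • ω = ω

theorem Supp.map {A : Finset C} {ω : Ω} (h : Supp A ω) (γ : Equiv.Perm C) :
    Supp (A.map γ.toEmbedding) (γ • ω) := by
  intro δ hδ
  have h1 : (γ⁻¹ * δ * γ) • ω = ω := by
    apply h
    intro c hc
    have h2 : δ (γ c) = γ c := hδ _ (Finset.mem_map_of_mem _ hc)
    rw [Equiv.Perm.mul_apply, Equiv.Perm.mul_apply, h2]
    exact γ.symm_apply_apply c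
  rw [mul_smul, mul_smul, inv_smul_eq_iff] at h1
  exact h1

theorem Supp.eq_of_eqOn {A : Finset C} {ω : Ω} (h : Supp A ω) (γ δ : Equiv.Perm C)
    (hγδ : ∀ c ∈ A, γ c = δ c) : γ • ω = δ • ω := by
  have h1 : (δ⁻¹ * γ) • ω = ω := by
    apply h
    intro c hc
    rw [Equiv.Perm.mul_apply, hγδ c hc]
    exact δ.symm_apply_apply c
  rw [mul_smul, inv_smul_eq_iff] at h1
  exact h1

/-- permuting blocks -/
noncomputable def blockHom {J K : Type} (emb : J × K ↪ C) : Equiv.Perm J →* Equiv.Perm C where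
  toFun π := Equiv.Perm.viaEmbedding (Equiv.prodCongr π (Equiv.refl K)) emb
  map_one' := by
    have : (Equiv.prodCongr (1 : Equiv.Perm J) (Equiv.refl K) : Equiv.Perm (J × K)) = 1 := by
      ext ⟨j, κ⟩ <;> rfl
    rw [this]
    exact (Equiv.Perm.viaEmbeddingHom emb).map_one
  map_mul' π σ := by
    have : (Equiv.prodCongr (π * σ) (Equiv.refl K) : Equiv.Perm (J × K)) =
        (Equiv.prodCongr π (Equiv.refl K) : Equiv.Perm (J × K)) *
          (Equiv.prodCongr σ (Equiv.refl K) : Equiv.Perm (J × K)) := by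
      ext ⟨j, κ⟩ <;> rfl
    rw [this]
    exact (Equiv.Perm.viaEmbeddingHom emb).map_mul _ _

theorem blockHom_apply {J K : Type} (emb : J × K ↪ C) (π : Equiv.Perm J) (j : J) (κ : K) :
    blockHom emb π (emb (j, κ)) = emb (π j, κ) :=
  Equiv.Perm.viaEmbedding_apply _ emb (j, κ)

theorem blockHom_apply_of_notMem {J K : Type} (emb : J × K ↪ C) (π : Equiv.Perm J) (c : C)
    (hc : c ∉ Set.range emb) : blockHom emb π c = c :=
  Equiv.Perm.viaEmbedding_apply_of_notMem _ emb c hc

theorem move_fresh (f : G Ω → ℝ) (h01 : ∀ x, f x = 0 ∨ f x = 1)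
    (hf : ∀ (γ : Equiv.Perm C) (x : G Ω), f (act γ x) = f x) (M : ℕ) (hM : (M + 1).Prime) (n : ℕ)
    (hMn : M = 2 * n) (hs : (spec f).card < 2 ^ M) (k : ℕ) (A : Ω → Finset C)
    (hA : ∀ ω, (A ω).card ≤ k ∧ Supp (A ω) ω) (d : ℕ) (hC : k * (4 * M + d + 5) ≤ Fintype.card C)
    (x : G Ω) (hx : wt x ≤ d + 1) (ω : Ω) (W : Finset C) (hW : W.card ≤ k) (hWs : Supp W ω)
    (τ : Equiv.Perm C) (hτ : ∀ c ∈ W, τ c ∉ W) (hτx : ∀ c ∈ W, ∀ ω', x ω' ≠ 0 → τ c ∉ A ω') :
    f (x + e ω) = f (x + e (τ • ω)) := by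
  classical
  have hM1 : 1 ≤ M := by
    have := hM.two_le; omega
  set U : Finset C := (univ.filter (fun ω' => x ω' ≠ 0)).biUnion A with hU
  have hUcard : U.card ≤ k * (d + 1) := by
    calc U.card ≤ ∑ ω' ∈ univ.filter (fun ω' => x ω' ≠ 0), (A ω').card := Finset.card_biUnion_le
      _ ≤ ∑ ω' ∈ univ.filter (fun ω' => x ω' ≠ 0), k :=
          Finset.sum_le_sum (fun ω' _ => (hA ω').1)
      _ = wt x * k := by rw [Finset.sum_const, smul_eq_mul]; rfl
      _ ≤ (d + 1) * k := Nat.mul_le_mul_right _ hx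
      _ = k * (d + 1) := Nat.mul_comm _ _
  have hmemU : ∀ ω', x ω' ≠ 0 → A ω' ⊆ U := by
    intro ω' h
    exact Finset.subset_biUnion_of_mem A (Finset.mem_filter.mpr ⟨Finset.mem_univ _, h⟩)
  set τW : Finset C := W.map τ.toEmbedding with hτW
  set T : Finset C := U ∪ (W ∪ τW) with hT
  have hTcard : T.card ≤ k * (d + 1) + 2 * k := by
    calc T.card ≤ U.card + (W ∪ τW).card := Finset.card_union_le _ _
      _ ≤ U.card + (W.card + τW.card) := Nat.add_le_add_left (Finset.card_union_le _ _) _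
      _ ≤ k * (d + 1) + (k + k) := by
          have : τW.card = W.card := Finset.card_map _
          omega
      _ = _ := by ring
  let J := Fin (4 * M + 2)
  let K := {c // c ∈ W}
  have hcardK : Fintype.card K ≤ k := by rw [Fintype.card_coe]; exact hW
  obtain ⟨g⟩ : Nonempty (J × K ↪ {c // c ∉ T}) := by
    apply Function.Embedding.nonempty_of_card_le
    rw [Fintype.card_prod, Fintype.card_fin]
    have h1 : Fintype.card {c // c ∉ T} = Fintype.card C - T.card := by
      rw [Fintype.card_subtype_compl, Fintype.card_coe]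
    rw [h1]
    have h2 : (4 * M + 2) * Fintype.card K ≤ (4 * M + 2) * k := Nat.mul_le_mul_left _ hcardK
    have h3 : k * (4 * M + d + 5) = (4 * M + 2) * k + (k * (d + 1) + 2 * k) := by ring
    omega
  have hJ0 : 0 < 4 * M + 2 := by omega
  have hJ1 : 1 < 4 * M + 2 := by omega
  let j0 : J := ⟨0, hJ0⟩
  let j1 : J := ⟨1, hJ1⟩
  have hj01 : j0 ≠ j1 := by
    intro h
    have := congrArg Fin.val h
    simp [j0, j1] at this
  let emb0 : J × K → C := fun q => if q.1 = j0 then q.2.1 else if q.1 = j1 then τ q.2.1 else (g q).1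
  have hgT : ∀ q, (g q).1 ∉ T := fun q => (g q).2
  have hinj : Function.Injective emb0 := by
    rintro ⟨j, κ⟩ ⟨j', κ'⟩ h
    simp only [emb0] at h
    by_cases h1 : j = j0
    · by_cases h1' : j' = j0
      · rw [if_pos h1, if_pos h1'] at h
        rw [h1, h1', Subtype.ext h]
      · by_cases h2' : j' = j1
        · rw [if_pos h1, if_neg h1', if_pos h2'] at h
          exact absurd (h ▸ κ.2) (hτ _ κ'.2)
        · rw [if_pos h1, if_neg h1', if_neg h2'] at h
          exfalso
          apply hgT (j', κ')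
          rw [← h, hT, Finset.mem_union, Finset.mem_union]
          exact Or.inr (Or.inl κ.2)
    · by_cases h2 : j = j1
      · by_cases h1' : j' = j0
        · rw [if_neg h1, if_pos h2, if_pos h1'] at h
          exact absurd (h ▸ κ'.2) (hτ _ κ.2)
        · by_cases h2' : j' = j1
          · rw [if_neg h1, if_pos h2, if_neg h1', if_pos h2'] at h
            rw [h2, h2', Subtype.ext (τ.injective h)]
          · rw [if_neg h1, if_pos h2, if_neg h1', if_neg h2'] at h
            exfalso
            apply hgT (j', κ')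
            rw [← h, hT, Finset.mem_union, Finset.mem_union]
            exact Or.inr (Or.inr (Finset.mem_map_of_mem _ κ.2))
      · by_cases h1' : j' = j0
        · rw [if_neg h1, if_neg h2, if_pos h1'] at h
          exfalso
          apply hgT (j, κ)
          rw [h, hT, Finset.mem_union, Finset.mem_union]
          exact Or.inr (Or.inl κ'.2)
        · by_cases h2' : j' = j1
          · rw [if_neg h1, if_neg h2, if_neg h1', if_pos h2'] at h
            exfalso
            apply hgT (j, κ)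
            rw [h, hT, Finset.mem_union, Finset.mem_union]
            exact Or.inr (Or.inr (Finset.mem_map_of_mem _ κ'.2))
          · rw [if_neg h1, if_neg h2, if_neg h1', if_neg h2'] at h
            exact g.injective (Subtype.ext h)
  let emb : J × K ↪ C := ⟨emb0, hinj⟩
  have hemb0 : ∀ κ : K, emb (j0, κ) = κ.1 := fun κ => by simp [emb, emb0]
  have hemb1 : ∀ κ : K, emb (j1, κ) = τ κ.1 := fun κ => by
    simp only [emb, emb0, Function.Embedding.coeFn_mk]
    rw [if_neg (Ne.symm hj01)]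
    simp
  -- elements of `U` outside `W` are not in the range
  have hUW : ∀ c, c ∈ U → c ∉ W → c ∉ Set.range emb := by
    rintro c hcU hcW ⟨⟨j, κ⟩, hq⟩
    simp only [emb, emb0, Function.Embedding.coeFn_mk] at hq
    by_cases h1 : j = j0
    · rw [if_pos h1] at hq
      exact hcW (hq ▸ κ.2)
    · by_cases h2 : j = j1
      · rw [if_neg h1, if_pos h2] at hq
        rw [hU, Finset.mem_biUnion] at hcU
        obtain ⟨ω', hω', hc⟩ := hcU
        exact hτx κ.1 κ.2 ω' (Finset.mem_filter.mp hω').2 (hq ▸ hc)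
      · rw [if_neg h1, if_neg h2] at hq
        apply hgT (j, κ)
        rw [hq, hT, Finset.mem_union]
        exact Or.inl hcU
  let ρ : Equiv.Perm J →* Equiv.Perm C := blockHom emb
  -- decomposition of `x`
  let Y : G Ω := fun ω' => if Disjoint (A ω') W then x ω' else 0
  let a0 : G Ω := fun ω' => if Disjoint (A ω') W then 0 else x ω'
  have hxY : x = Y + a0 := by
    funext ω'
    simp only [Y, a0, Pi.add_apply]
    split_ifs <;> simp
  have hY : ∀ π : Equiv.Perm J, act (ρ π) Y = Y := by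
    intro π
    apply act_eq_self
    intro ω' hω'
    simp only [Y] at hω'
    split_ifs at hω' with h1
    · apply (hA ω').2
      intro c hc
      apply blockHom_apply_of_notMem
      exact hUW c (hmemU ω' hω' hc) (Finset.disjoint_left.mp h1 hc)
    · exact absurd rfl hω'
  have ha0 : ∀ π : Equiv.Perm J, π j0 = j0 → act (ρ π) a0 = a0 := by
    intro π hπ
    apply act_eq_self
    intro ω' hω'
    simp only [a0] at hω'
    split_ifs at hω' with h1
    · exact absurd rfl hω'
    · apply (hA ω').2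
      intro c hc
      by_cases hcW : c ∈ W
      · have h2 := blockHom_apply emb π j0 ⟨c, hcW⟩
        rw [hπ, hemb0] at h2
        exact h2
      · apply blockHom_apply_of_notMem
        exact hUW c (hmemU ω' hω' hc) hcW
  have hb0 : ∀ π : Equiv.Perm J, π j0 = j0 → act (ρ π) (e ω : G Ω) = e ω := by
    intro π hπ
    rw [act_e]
    congr 1
    apply hWs
    intro c hc
    have h2 := blockHom_apply emb π j0 ⟨c, hc⟩
    rw [hπ, hemb0] at h2
    exact h2
  have key := merge f h01 hf M hM n hMn hs ρ (by simp [J]) _ _ (copies_of_local ρ j0 a0 ha0)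
    (copies_of_local ρ j0 (e ω) hb0) Y (fun π _ => hY π) j0 j1 hj01
  rw [Equiv.swap_self] at key
  have h1 : ∀ z : G Ω, act (ρ (Equiv.refl J)) z = z := by
    intro z
    have : (Equiv.refl J) = (1 : Equiv.Perm J) := rfl
    rw [this, map_one, act_one]
  rw [h1, h1, ← hxY, act_e] at key
  rw [key]
  congr 3
  apply hWs.eq_of_eqOn
  intro c hc
  have h2 := blockHom_apply emb (Equiv.swap j0 j1) j0 ⟨c, hc⟩
  rw [Equiv.swap_apply_left, hemb0, hemb1] at h2
  exact h2

theorem move_any (f : G Ω → ℝ) (h01 : ∀ x, f x = 0 ∨ f x = 1)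
    (hf : ∀ (γ : Equiv.Perm C) (x : G Ω), f (act γ x) = f x) (M : ℕ) (hM : (M + 1).Prime) (n : ℕ)
    (hMn : M = 2 * n) (hs : (spec f).card < 2 ^ M) (k : ℕ) (A : Ω → Finset C)
    (hA : ∀ ω, (A ω).card ≤ k ∧ Supp (A ω) ω) (d : ℕ) (hC : k * (4 * M + d + 5) ≤ Fintype.card C)
    (x : G Ω) (hx : wt x ≤ d + 1) (ω : Ω) (γ : Equiv.Perm C) :
    f (x + e ω) = f (x + e (γ • ω)) := by
  classical
  have hM1 : 1 ≤ M := by
    have := hM.two_le; omega
  set U : Finset C := (univ.filter (fun ω' => x ω' ≠ 0)).biUnion A with hU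
  have hUcard : U.card ≤ k * (d + 1) := by
    calc U.card ≤ ∑ ω' ∈ univ.filter (fun ω' => x ω' ≠ 0), (A ω').card := Finset.card_biUnion_le
      _ ≤ ∑ ω' ∈ univ.filter (fun ω' => x ω' ≠ 0), k :=
          Finset.sum_le_sum (fun ω' _ => (hA ω').1)
      _ = wt x * k := by rw [Finset.sum_const, smul_eq_mul]; rfl
      _ ≤ (d + 1) * k := Nat.mul_le_mul_right _ hx
      _ = k * (d + 1) := Nat.mul_comm _ _
  have hmemU : ∀ ω', x ω' ≠ 0 → A ω' ⊆ U := by
    intro ω' h
    exact Finset.subset_biUnion_of_mem A (Finset.mem_filter.mpr ⟨Finset.mem_univ _, h⟩)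
  set W := A ω with hW
  set W' := W.map γ.toEmbedding with hW'
  have hW'card : W'.card = W.card := Finset.card_map _
  set T : Finset C := U ∪ (W ∪ W') with hT
  have hTcard : T.card ≤ k * (d + 1) + 2 * k := by
    have h1 : W.card ≤ k := (hA ω).1
    calc T.card ≤ U.card + (W ∪ W').card := Finset.card_union_le _ _
      _ ≤ U.card + (W.card + W'.card) := Nat.add_le_add_left (Finset.card_union_le _ _) _
      _ ≤ k * (d + 1) + (k + k) := by omega
      _ = _ := by ring
  -- a fresh copy of `W`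
  obtain ⟨V, hVT, hVcard⟩ : ∃ V ⊆ univ \ T, V.card = W.card := by
    apply Finset.exists_subset_card_eq
    rw [Finset.card_sdiff_of_subset (Finset.subset_univ T), Finset.card_univ]
    have h1 : W.card ≤ k := (hA ω).1
    have h3 : k * (4 * M + d + 5) = (4 * M + 1) * k + k + (k * (d + 1) + 2 * k) := by ring
    omega
  have e0 : {c // c ∈ W} ≃ {c // c ∈ V} := Finset.equivOfCardEq hVcard.symm
  let τ : Equiv.Perm C := e0.extendSubtype
  have hτ : ∀ c ∈ W, τ c ∈ V := fun c hc => e0.extendSubtype_mem c hc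
  have hVT' : ∀ c ∈ V, c ∉ T := fun c hc => (Finset.mem_sdiff.mp (hVT hc)).2
  have s1 := move_fresh f h01 hf M hM n hMn hs k A hA d hC x hx ω W (hA ω).1 (hA ω).2 τ
    (fun c hc h => hVT' _ (hτ c hc) (by
      rw [hT, Finset.mem_union, Finset.mem_union]; exact Or.inr (Or.inl h)))
    (fun c hc ω' hω' h => hVT' _ (hτ c hc) (by
      rw [hT, Finset.mem_union]; exact Or.inl (hmemU ω' hω' h)))
  have s2 := move_fresh f h01 hf M hM n hMn hs k A hA d hC x hx (γ • ω) W'
    (by rw [hW'card]; exact (hA ω).1) ((hA ω).2.map γ) (τ * γ⁻¹)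
    (by
      intro c hc h
      rw [hW', Finset.mem_map] at hc
      obtain ⟨c', hc', rfl⟩ := hc
      have h1 : (τ * γ⁻¹) (γ.toEmbedding c') = τ c' := by
        rw [Equiv.Perm.mul_apply]
        congr 1
        exact γ.symm_apply_apply c'
      rw [h1] at h
      exact hVT' _ (hτ c' hc') (by
        rw [hT, Finset.mem_union, Finset.mem_union]; exact Or.inr (Or.inr h)))
    (by
      intro c hc ω' hω' h
      rw [hW', Finset.mem_map] at hc
      obtain ⟨c', hc', rfl⟩ := hc
      have h1 : (τ * γ⁻¹) (γ.toEmbedding c') = τ c' := by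
        rw [Equiv.Perm.mul_apply]
        congr 1
        exact γ.symm_apply_apply c'
      rw [h1] at h
      exact hVT' _ (hτ c' hc') (by
        rw [hT, Finset.mem_union]; exact Or.inl (hmemU ω' hω' h)))
  rw [s1, s2, mul_smul, inv_smul_smul]

/-- If the spectrum is small then `f` is invariant under moving coordinates within an orbit. -/
theorem translation_invariant (f : G Ω → ℝ) (h01 : ∀ x, f x = 0 ∨ f x = 1)
    (hf : ∀ (γ : Equiv.Perm C) (x : G Ω), f (act γ x) = f x) (M : ℕ) (hM : (M + 1).Prime) (n : ℕ)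
    (hMn : M = 2 * n) (hs : (spec f).card < 2 ^ M) (k : ℕ) (A : Ω → Finset C)
    (hA : ∀ ω, (A ω).card ≤ k ∧ Supp (A ω) ω) (d : ℕ) (hC : k * (4 * M + d + 5) ≤ Fintype.card C)
    (hd : (spec f).card ≤ 2 ^ d) (x : G Ω) (ω : Ω) (γ : Equiv.Perm C) :
    f (x + (e ω + e (γ • ω))) = f x := by
  let D : G Ω → ℝ := fun x => f (x + (e ω + e (γ • ω))) + (-1) * f x
  have hD : D = 0 := by
    by_contra hne
    have hspec : spec D ⊆ spec f := by
      intro a ha
      rw [mem_spec] at ha ⊢
      intro h0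
      apply ha
      simp only [D]
      rw [coef_add (fun x => f (x + (e ω + e (γ • ω)))) f (-1) a, coef_shift, h0]
      ring
    obtain ⟨y, hy, hy'⟩ := sparse_nonzero d D hne (le_trans (Finset.card_le_card hspec) hd)
    apply hy'
    have h1 := move_any f h01 hf M hM n hMn hs k A hA d hC (y + e ω)
      (le_trans (wt_add_e y ω) (by omega)) ω γ
    have h2 : y + e ω + e ω = y := by rw [add_assoc, add_self, add_zero]
    rw [h2] at h1
    simp only [D]
    rw [← add_assoc, ← h1]
    ring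
  have := congrFun hD x
  simp only [D, Pi.zero_apply] at this
  linarith

end Pool.Agent.Lib_helper78.LR
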