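import Pool.Agent.Lib_helper78.LR.Fourier

/-!
Symmetric restrictions of sparse invariant Boolean functions.
-/

set_option autoImplicit false
set_option linter.unusedSectionVars false

namespace Pool.Agent.Lib_helper78.LR

open Finset

theorem choose_pred_mod (q : ℕ) (hq : q.Prime) (k : ℕ) (hk : k < q) :
    ((-1 : ℤ) ^ k * ((q - 1).choose k : ℤ)) ≡ 1 [ZMOD q] := by
  induction k with
  | zero => simp
  | succ k ih =>
    have h1 := ih (by omega)
    have h2 : (q - 1).choose k + (q - 1).choose (k + 1) = q.choose (k + 1) := by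
      have : q = (q - 1) + 1 := by have := hq.pos; omega
      conv_rhs => rw [this]
      rw [Nat.choose_succ_succ]
    have h3 : (q : ℤ) ∣ ((q - 1).choose k : ℤ) + ((q - 1).choose (k + 1) : ℤ) := by
      rw [← Nat.cast_add, h2]
      exact_mod_cast hq.dvd_choose_self (by omega) hk
    have h4 : ((-1 : ℤ) ^ (k + 1) * ((q - 1).choose (k + 1) : ℤ)) -
        ((-1 : ℤ) ^ k * ((q - 1).choose k : ℤ)) =
        (-1 : ℤ) ^ (k + 1) * (((q - 1).choose k : ℤ) + ((q - 1).choose (k + 1) : ℤ)) := by
      ring
    have h5 : (q : ℤ) ∣ ((-1 : ℤ) ^ (k + 1) * ((q - 1).choose (k + 1) : ℤ)) -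
        ((-1 : ℤ) ^ k * ((q - 1).choose k : ℤ)) := by
      rw [h4]; exact Dvd.dvd.mul_left h3 _
    have h6 : ((-1 : ℤ) ^ (k + 1) * ((q - 1).choose (k + 1) : ℤ)) ≡
        ((-1 : ℤ) ^ k * ((q - 1).choose k : ℤ)) [ZMOD q] :=
      (Int.modEq_iff_dvd.mpr (by rw [← neg_sub]; exact h5.neg_right))
    exact h6.trans h1

/-- A symmetric Boolean function of `q - 1` variables without top coefficient is constant. -/
theorem symm_const (q : ℕ) (hq : q.Prime) (g : ℕ → ℤ) (hg : ∀ k, g k = 0 ∨ g k = 1)
    (h : ∑ k ∈ Finset.range q, (-1 : ℤ) ^ k * ((q - 1).choose k : ℤ) * g k = 0) :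
    ∀ k, k < q → g k = g 0 := by
  have h1 : (∑ k ∈ Finset.range q, g k) ≡ 0 [ZMOD q] := by
    have h2 : (∑ k ∈ Finset.range q, (-1 : ℤ) ^ k * ((q - 1).choose k : ℤ) * g k) ≡
        ∑ k ∈ Finset.range q, g k [ZMOD q] := by
      refine Int.ModEq.sum (fun k hk => ?_)
      have := (choose_pred_mod q hq k (Finset.mem_range.mp hk)).mul_right (g k)
      simpa using this
    rw [h] at h2
    exact h2.symm
  have h0 : ∀ k, 0 ≤ g k := fun k => by rcases hg k with h | h <;> rw [h] <;> norm_num
  have hle : ∀ k, g k ≤ 1 := fun k => by rcases hg k with h | h <;> rw [h] <;> norm_num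
  have hnn : 0 ≤ ∑ k ∈ Finset.range q, g k := Finset.sum_nonneg (fun k _ => h0 k)
  have hub : ∑ k ∈ Finset.range q, g k ≤ q := by
    calc ∑ k ∈ Finset.range q, g k ≤ ∑ k ∈ Finset.range q, (1 : ℤ) :=
          Finset.sum_le_sum (fun k _ => hle k)
      _ = q := by simp
  have hdvd : (q : ℤ) ∣ ∑ k ∈ Finset.range q, g k := Int.modEq_zero_iff_dvd.mp h1
  have hqpos : (0 : ℤ) < q := by exact_mod_cast hq.pos
  obtain ⟨c, hc⟩ := hdvd
  have hc0 : 0 ≤ c := by
    by_contra hcon
    push Not at hcon
    nlinarith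
  have hc1 : c ≤ 1 := by
    by_contra hcon
    push Not at hcon
    nlinarith
  have hcc : c = 0 ∨ c = 1 := by omega
  rcases hcc with hcc | hcc
  · rw [hcc, mul_zero] at hc
    have hz := (Finset.sum_eq_zero_iff_of_nonneg (fun k _ => h0 k)).mp hc
    intro k hk
    rw [hz k (Finset.mem_range.mpr hk), hz 0 (Finset.mem_range.mpr hq.pos)]
  · rw [hcc, mul_one] at hc
    have hz : ∑ k ∈ Finset.range q, (1 - g k) = 0 := by
      rw [Finset.sum_sub_distrib, hc]; simp
    have hz' := (Finset.sum_eq_zero_iff_of_nonneg (fun k _ => by linarith [hle k])).mp hz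
    intro k hk
    have e1 := hz' k (Finset.mem_range.mpr hk)
    have e2 := hz' 0 (Finset.mem_range.mpr hq.pos)
    linarith

variable {Ω : Type} [Fintype Ω] [DecidableEq Ω] {Γ : Type} [Group Γ] [MulAction Γ Ω]

/-- the action on `F_2^Ω` -/
def act (γ : Γ) (x : G Ω) : G Ω := fun ω => x (γ⁻¹ • ω)

theorem act_mul (γ δ : Γ) (x : G Ω) : act (γ * δ) x = act γ (act δ x) := by
  funext ω
  simp [act, mul_smul]

theorem act_one (x : G Ω) : act (1 : Γ) x = x := by
  funext ω
  simp [act]

theorem act_add (γ : Γ) (x y : G Ω) : act γ (x + y) = act γ x + act γ y := by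
  funext ω
  simp [act]

theorem act_zero (γ : Γ) : act γ (0 : G Ω) = 0 := by
  funext ω
  simp [act]

theorem act_sum {ι : Type} (γ : Γ) (s : Finset ι) (x : ι → G Ω) :
    act γ (∑ i ∈ s, x i) = ∑ i ∈ s, act γ (x i) := by
  classical
  induction s using Finset.induction_on with
  | empty => simp [act_zero]
  | insert i s hi ih => rw [Finset.sum_insert hi, Finset.sum_insert hi, act_add, ih]

theorem act_e (γ : Γ) (ω : Ω) : act γ (e ω) = e (γ • ω) := by
  funext ω'
  simp only [act, e, Pi.single_apply]
  by_cases h : ω' = γ • ω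
  · rw [if_pos h, if_pos (by rw [h, inv_smul_smul])]
  · rw [if_neg h, if_neg]
    intro h2
    apply h
    rw [← h2, smul_inv_smul]

theorem chi_act (γ : Γ) (a x : G Ω) : chi (act γ a) (act γ x) = chi a x := by
  unfold chi act
  congr 1
  exact Fintype.sum_equiv (MulAction.toPerm γ⁻¹) _ _ (fun ω => rfl)

theorem coef_act (f : G Ω → ℝ) (hf : ∀ (γ : Γ) (x : G Ω), f (act γ x) = f x) (γ : Γ) (a : G Ω) :
    coef f (act γ a) = coef f a := by
  unfold coef
  symm
  refine Fintype.sum_bijective (act γ) ?_ _ _ (fun x => ?_)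
  · constructor
    · intro x y hxy
      have := congrArg (act γ⁻¹) hxy
      rwa [← act_mul, ← act_mul, inv_mul_cancel, act_one, act_one] at this
    · intro y
      exact ⟨act γ⁻¹ y, by rw [← act_mul, mul_inv_cancel, act_one]⟩
  · rw [hf, chi_act]

/-- the main restriction lemma -/
theorem lemma_one (f : G Ω → ℝ) (h01 : ∀ x, f x = 0 ∨ f x = 1)
    (hf : ∀ (γ : Γ) (x : G Ω), f (act γ x) = f x) (M : ℕ) (hM : (M + 1).Prime)
    (hs : (spec f).card < 2 ^ M) (y : G Ω) (b : Fin M × Bool → G Ω)
    (H1 : ∀ σ : Equiv.Perm (Fin M), ∃ γ : Γ, act γ y = y ∧ ∀ i ε, act γ (b (i, ε)) = b (σ i, ε))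
    (H2 : ∀ T : Fin M → Bool, ∃ γ : Γ, ∀ i ε, act γ (b (i, ε)) = b (i, xor ε (T i))) :
    ∀ I : Finset (Fin M), f (y + ∑ i ∈ I, (b (i, false) + b (i, true))) = f y := by
  classical
  let F : Finset (Fin M) → ℝ := fun I => f (y + ∑ i ∈ I, (b (i, false) + b (i, true)))
  have hsymm : ∀ I J : Finset (Fin M), I.card = J.card → F I = F J := by
    intro I J hIJ
    -- a permutation mapping `I` to `J`
    obtain ⟨σ, hσ⟩ : ∃ σ : Equiv.Perm (Fin M), I.map σ.toEmbedding = J := by
      have e0 : {x // x ∈ I} ≃ {x // x ∈ J} := Finset.equivOfCardEq hIJ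
      refine ⟨e0.extendSubtype, ?_⟩
      apply Finset.eq_of_subset_of_card_le
      · intro x hx
        rw [Finset.mem_map] at hx
        obtain ⟨z, hz, rfl⟩ := hx
        exact e0.extendSubtype_mem z hz
      · rw [Finset.card_map, hIJ]
    obtain ⟨γ, hγy, hγb⟩ := H1 σ
    simp only [F]
    rw [← hf γ (y + ∑ i ∈ I, (b (i, false) + b (i, true))), act_add, hγy, act_sum, ← hσ,
      Finset.sum_map]
    congr 2
    refine Finset.sum_congr rfl (fun i _ => ?_)
    rw [act_add, hγb, hγb]
    rfl
  -- the alternating sum vanishes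
  have halt : ∑ I : Finset (Fin M), (-1 : ℝ) ^ I.card * F I = 0 := by
    by_contra hne
    have hN : (2 : ℝ) ^ Fintype.card Ω ≠ 0 := by positivity
    have hexp : (2 : ℝ) ^ Fintype.card Ω * ∑ I : Finset (Fin M), (-1 : ℝ) ^ I.card * F I =
        ∑ a : G Ω, coef f a * chi a y * ∏ i : Fin M, (1 - chi a (b (i, false) + b (i, true))) := by
      have h1 : ∀ I : Finset (Fin M), (2 : ℝ) ^ Fintype.card Ω * ((-1 : ℝ) ^ I.card * F I) =
          ∑ a : G Ω, coef f a * chi a y * ∏ i ∈ I, (-chi a (b (i, false) + b (i, true))) := by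
        intro I
        have h2 : (2 : ℝ) ^ Fintype.card Ω * ((-1 : ℝ) ^ I.card * F I) =
            (-1 : ℝ) ^ I.card * ((2 : ℝ) ^ Fintype.card Ω * F I) := by ring
        rw [h2]
        simp only [F]
        rw [← inversion, Finset.mul_sum]
        refine Finset.sum_congr rfl (fun a _ => ?_)
        have h3 : ∀ s : Finset (Fin M), chi a (∑ i ∈ s, (b (i, false) + b (i, true))) =
            ∏ i ∈ s, chi a (b (i, false) + b (i, true)) := by
          intro s
          induction s using Finset.induction_on with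
          | empty => simp [chi_zero]
          | insert i s hi ih =>
            rw [Finset.sum_insert hi, chi_add, Finset.prod_insert hi, ih]
        rw [chi_add, h3, Finset.prod_neg]
        ring
      rw [Finset.mul_sum, Finset.sum_congr rfl (fun I _ => h1 I), Finset.sum_comm]
      refine Finset.sum_congr rfl (fun a _ => ?_)
      rw [← Finset.mul_sum]
      congr 1
      have h4 : ∀ i : Fin M, 1 - chi a (b (i, false) + b (i, true)) =
          1 + -chi a (b (i, false) + b (i, true)) := fun i => by ring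
      rw [Finset.prod_congr rfl (fun i _ => h4 i), Finset.prod_one_add]
      rw [Finset.powerset_univ]
    have hne2 : ∑ a : G Ω, coef f a * chi a y *
        ∏ i : Fin M, (1 - chi a (b (i, false) + b (i, true))) ≠ 0 := by
      rw [← hexp]; exact mul_ne_zero hN hne
    obtain ⟨a, _, ha⟩ := Finset.exists_ne_zero_of_sum_ne_zero hne2
    have haspec : a ∈ spec f := (mem_spec f a).2 (left_ne_zero_of_mul (left_ne_zero_of_mul ha))
    have hprod := right_ne_zero_of_mul ha
    have hi : ∀ i : Fin M, chi a (b (i, false)) ≠ chi a (b (i, true)) := by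
      intro i heq
      have h5 : 1 - chi a (b (i, false) + b (i, true)) ≠ 0 :=
        Finset.prod_ne_zero_iff.mp hprod i (Finset.mem_univ i)
      apply h5
      rw [chi_add, heq, chi_mul_self]; ring
    choose γ hγ using H2
    have hinj : Set.InjOn (fun T : Fin M → Bool => act (γ T) a) (univ : Finset (Fin M → Bool)) := by
      intro T _ T' _ hTT
      simp only at hTT
      funext i
      have h6 : ∀ T : Fin M → Bool, chi (act (γ T) a) (b (i, false)) = chi a (b (i, T i)) := by
        intro T
        have h7 := hγ T i (T i)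
        rw [Bool.xor_self] at h7
        rw [← h7, chi_act]
      have h8 := h6 T
      rw [hTT, h6 T'] at h8
      by_contra hne'
      rcases hT : T i with _ | _ <;> rcases hT' : T' i with _ | _
      · exact hne' (hT.trans hT'.symm)
      · rw [hT, hT'] at h8; exact hi i h8.symm
      · rw [hT, hT'] at h8; exact hi i h8
      · exact hne' (hT.trans hT'.symm)
    have hcard : (univ : Finset (Fin M → Bool)).card ≤ (spec f).card := by
      apply Finset.card_le_card_of_injOn _ _ hinj
      intro T _
      rw [Finset.mem_coe, mem_spec, coef_act f hf]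
      exact (mem_spec f a).1 haspec
    rw [Finset.card_univ, Fintype.card_fun, Fintype.card_bool, Fintype.card_fin] at hcard
    omega
  -- pass to a function of the cardinality
  let g : ℕ → ℤ := fun k => if h : k ≤ M then
      (if F (univ.filter (fun i : Fin M => (i : ℕ) < k)) = 0 then 0 else 1) else 0
  have hcardk : ∀ k, k ≤ M → (univ.filter (fun i : Fin M => (i : ℕ) < k)).card = k := by
    intro k hk
    rw [Fin.card_filter_val_lt]
    omega
  have hFg : ∀ I : Finset (Fin M), F I = (g I.card : ℝ) := by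
    intro I
    have hle : I.card ≤ M := by
      have := Finset.card_le_univ I
      simpa using this
    have h1 : F I = F (univ.filter (fun i : Fin M => (i : ℕ) < I.card)) :=
      hsymm _ _ (hcardk _ hle).symm
    simp only [g, dif_pos hle]
    rw [h1]
    split_ifs with h2
    · rw [h2]; simp
    · rcases h01 (y + ∑ i ∈ univ.filter (fun i : Fin M => (i : ℕ) < I.card),
        (b (i, false) + b (i, true))) with h3 | h3
      · exact absurd h3 h2
      · simp only [F]; rw [h3]; simp
  have hgz : ∑ k ∈ Finset.range (M + 1), (-1 : ℤ) ^ k * ((M + 1 - 1).choose k : ℤ) * g k = 0 := by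
    have h1 : ((∑ k ∈ Finset.range (M + 1), (-1 : ℤ) ^ k * ((M + 1 - 1).choose k : ℤ) * g k : ℤ) : ℝ)
        = 0 := by
      rw [← halt]
      have h2 := Finset.sum_powerset_apply_card (x := (univ : Finset (Fin M)))
        (fun k => (-1 : ℝ) ^ k * (g k : ℝ))
      rw [Finset.powerset_univ] at h2
      have h3 : ∑ I : Finset (Fin M), (-1 : ℝ) ^ I.card * F I =
          ∑ I : Finset (Fin M), (-1 : ℝ) ^ I.card * (g I.card : ℝ) :=
        Finset.sum_congr rfl (fun I _ => by rw [hFg])
      rw [h3, h2]
      push_cast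
      rw [Finset.card_univ, Fintype.card_fin]
      refine Finset.sum_congr rfl (fun k _ => ?_)
      simp only [Nat.add_sub_cancel, nsmul_eq_mul]
      ring
    exact_mod_cast h1
  have hgc := symm_const (M + 1) hM g (fun k => by
    simp only [g]
    split_ifs <;> simp) hgz
  intro I
  have hle : I.card < M + 1 := by
    have := Finset.card_le_univ I
    have h2 : I.card ≤ M := by simpa using this
    omega
  have h1 : F I = F ∅ := by
    rw [hFg I, hFg ∅, hgc _ hle]
    simp
  simpa [F] using h1

end Pool.Agent.Lib_helper78.LR
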