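import Pool.Agent.Lib_helper78.LR.Colour

/-!
The orbit count and the final protocol.
-/

set_option autoImplicit false
set_option linter.unusedSectionVars false

namespace Pool.Agent.Lib_helper78.LR

open Finset

variable {V κ : Type} [Fintype V] [DecidableEq V] [DecidableEq κ] (col : V → κ)
variable {Ω : Type} [Fintype Ω] [DecidableEq Ω] [MulAction (colPerm col) Ω]

/-- the colour-preserving permutations that fix all vertices in colour classes of size `< L` -/
def bigGroup (L : ℕ) : Subgroup (colPerm col) where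
  carrier := {g | ∀ v, Fintype.card {w // col w = col v} < L → (g : Equiv.Perm V) v = v}
  mul_mem' := by
    intro g h hg hh v hv
    rw [Subgroup.coe_mul, Equiv.Perm.mul_apply, hh v hv, hg v hv]
  one_mem' := by intro v _; rfl
  inv_mem' := by
    intro g hg v hv
    rw [Subgroup.coe_inv, Equiv.Perm.inv_eq_iff_eq, hg v hv]

theorem mem_bigGroup (L : ℕ) (g : colPerm col) : g ∈ bigGroup col L ↔
    ∀ v, Fintype.card {w // col w = col v} < L → (g : Equiv.Perm V) v = v := Iff.rfl

/-- the number of orbits of the group fixing the small classes -/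
theorem orbit_bound (L : ℕ) (k : ℕ) (A : Ω → Finset V)
    (hA : ∀ ω, (A ω).card ≤ k ∧
      ∀ γ : colPerm col, (∀ v ∈ A ω, (γ : Equiv.Perm V) v = v) → γ • ω = ω) :
    Nat.card (MulAction.orbitRel.Quotient (bigGroup col L) Ω) ≤
      Nat.card (MulAction.orbitRel.Quotient (colPerm col) Ω) * (max L 1) ^ k := by
  classical
  -- the code of a vertex
  have hcode : ∃ code : V → Fin (max L 1), ∀ v w, col v = col w →
      Fintype.card {w // col w = col v} < L → code v = code w → v = w := by
    have h1 : ∀ c : κ, ∃ code : {w // col w = c} → Fin (max L 1),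
        Fintype.card {w // col w = c} < L → Function.Injective code := by
      intro c
      by_cases h : Fintype.card {w // col w = c} < L
      · have h2 : Fintype.card {w // col w = c} ≤ Fintype.card (Fin (max L 1)) := by
          rw [Fintype.card_fin]; exact le_trans h.le (le_max_left _ _)
        obtain ⟨emb⟩ := Function.Embedding.nonempty_of_card_le h2
        exact ⟨emb, fun _ => emb.injective⟩
      · exact ⟨fun _ => ⟨0, by omega⟩, fun h' => absurd h' h⟩
    choose code hc using h1
    refine ⟨fun v => code (col v) ⟨v, rfl⟩, fun v w hvw hs h => ?_⟩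
    have h3 : code (col w) ⟨w, rfl⟩ = code (col v) ⟨w, hvw.symm⟩ := by
      have : ∀ (c : κ) (hc : col w = c), code (col w) ⟨w, rfl⟩ = code c ⟨w, hc⟩ := by
        intro c hc; subst hc; rfl
      exact this _ _
    have h4 := hc (col v) hs (h.trans h3)
    exact congrArg Subtype.val h4
  obtain ⟨code, hcode⟩ := hcode
  -- enumeration of the supports
  have henum : ∀ ω : Ω, ∃ a : Fin k → Option V, ∀ v ∈ A ω, ∃ i, a i = some v := by
    intro ω
    have h1 := (hA ω).1
    refine ⟨fun i => if h : i.1 < (A ω).card then some ((A ω).equivFin.symm ⟨i.1, h⟩).1 else none,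
      fun v hv => ?_⟩
    refine ⟨⟨((A ω).equivFin ⟨v, hv⟩).1, lt_of_lt_of_le ((A ω).equivFin ⟨v, hv⟩).2 h1⟩, ?_⟩
    have h2 : ((A ω).equivFin ⟨v, hv⟩).1 < (A ω).card := ((A ω).equivFin ⟨v, hv⟩).2
    simp [h2]
  choose a ha using henum
  -- the transporters
  have hg : ∀ ω : Ω, ∃ g : colPerm col,
      g • (Quotient.out (Quotient.mk (MulAction.orbitRel (colPerm col) Ω) ω)) = ω := by
    intro ω
    have : (MulAction.orbitRel (colPerm col) Ω).r ω
        (Quotient.out (Quotient.mk (MulAction.orbitRel (colPerm col) Ω) ω)) :=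
      Setoid.symm' _ (Quotient.mk_out (s := MulAction.orbitRel (colPerm col) Ω) ω)
    obtain ⟨g, hg⟩ := this
    exact ⟨g, hg⟩
  choose g hg using hg
  let Φ : MulAction.orbitRel.Quotient (bigGroup col L) Ω →
      MulAction.orbitRel.Quotient (colPerm col) Ω × (Fin k → Fin (max L 1)) := fun q =>
    (Quotient.mk (MulAction.orbitRel (colPerm col) Ω) q.out, fun i =>
      match a (Quotient.out (Quotient.mk (MulAction.orbitRel (colPerm col) Ω) q.out)) i with
      | none => ⟨0, by omega⟩
      | some v => code ((g q.out : Equiv.Perm V) v))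
  have hΦ : Function.Injective Φ := by
    intro q q' hqq
    have h1 : Quotient.mk (MulAction.orbitRel (colPerm col) Ω) q.out =
        Quotient.mk (MulAction.orbitRel (colPerm col) Ω) q'.out := congrArg Prod.fst hqq
    have h2 := congrArg Prod.snd hqq
    simp only [Φ] at h2
    set r := Quotient.out (Quotient.mk (MulAction.orbitRel (colPerm col) Ω) q.out) with hr
    have hr' : Quotient.out (Quotient.mk (MulAction.orbitRel (colPerm col) Ω) q'.out) = r := by
      rw [hr, h1]
    rw [hr'] at h2
    have hgq : g q.out • r = q.out := hg q.out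
    have hgq' : g q'.out • r = q'.out := by
      have := hg q'.out
      rw [hr'] at this
      exact this
    have h3 : ∀ v ∈ A r, code ((g q.out : Equiv.Perm V) v) = code ((g q'.out : Equiv.Perm V) v) := by
      intro v hv
      obtain ⟨i, hi⟩ := ha r v hv
      have := congrFun h2 i
      simp only [hi] at this
      exact this
    -- the element of the big group
    let h := part col (g q'.out * (g q.out)⁻¹)
      (fun c => ¬ Fintype.card {w // col w = c} < L)
    have hh : h ∈ bigGroup col L := by
      intro v hv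
      exact part_of_neg col _ _ v (by simpa using hv)
    have hfix : ((g q'.out)⁻¹ * h * g q.out) • r = r := by
      apply (hA r).2
      intro v hv
      rw [Subgroup.coe_mul, Subgroup.coe_mul, Equiv.Perm.mul_apply, Equiv.Perm.mul_apply,
        Subgroup.coe_inv, Equiv.Perm.inv_eq_iff_eq]
      have hcol : col ((g q.out : Equiv.Perm V) v) = col v := (g q.out).2 v
      have hcol' : col ((g q'.out : Equiv.Perm V) v) = col v := (g q'.out).2 v
      by_cases hs : Fintype.card {w // col w = col v} < L
      · rw [part_of_neg col _ _ _ (by rw [hcol]; simpa using hs)]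
        exact hcode _ _ (hcol.trans hcol'.symm) (by rw [hcol]; exact hs) (h3 v hv)
      · rw [part_of_pos col _ _ _ (by rw [hcol]; exact hs)]
        rw [Subgroup.coe_mul, Equiv.Perm.mul_apply, Subgroup.coe_inv]
        congr 1
        exact (g q.out : Equiv.Perm V).symm_apply_apply v
    have hmove : h • q.out = q'.out := by
      rw [mul_smul, mul_smul, hgq, inv_smul_eq_iff, hgq'] at hfix
      exact hfix
    have hrel : (MulAction.orbitRel (bigGroup col L) Ω).r q'.out q.out :=
      ⟨⟨h, hh⟩, hmove⟩
    have := Quotient.sound (s := MulAction.orbitRel (bigGroup col L) Ω) hrel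
    rw [Quotient.out_eq, Quotient.out_eq] at this
    exact this.symm
  have hcard := Nat.card_le_card_of_injective Φ hΦ
  rw [Nat.card_prod, Nat.card_pi] at hcard
  simpa using hcard

/-- The parity labels. -/
noncomputable def par {Q : Type} [DecidableEq Q] (cl : Ω → Q) (x : G Ω) (q : Q) : ZMod 2 :=
  ∑ ω ∈ univ.filter (fun ω => cl ω = q), x ω

theorem par_add {Q : Type} [DecidableEq Q] (cl : Ω → Q) (x y : G Ω) (q : Q) :
    par cl (x + y) q = par cl x q + par cl y q := by
  simp only [par, Pi.add_apply, Finset.sum_add_distrib]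

/-- a vector with zero parities is a sum of differences -/
theorem tr_of_par {Q : Type} [Fintype Q] [DecidableEq Q] (cl : Ω → Q) (rep : Q → Ω)
    (f : G Ω → ℝ) (hrep : ∀ ω, Tr f (e ω + e (rep (cl ω)))) (z : G Ω)
    (hz : ∀ q, par cl z q = 0) : Tr f z := by
  classical
  have h1 : z = ∑ ω, z ω • (e ω + e (rep (cl ω)) : G Ω) + ∑ ω, z ω • (e (rep (cl ω)) : G Ω) := by
    rw [← Finset.sum_add_distrib]
    funext ω'
    rw [Finset.sum_apply]
    have h2 : ∀ ω, (z ω • (e ω + e (rep (cl ω)) : G Ω) + z ω • (e (rep (cl ω)) : G Ω)) =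
        z ω • (e ω : G Ω) := by
      intro ω
      rw [← smul_add, add_assoc, add_self, add_zero]
    simp only [h2]
    rw [Finset.sum_eq_single ω']
    · simp [e]
    · intro b _ hb
      simp [e, Ne.symm hb]
    · simp
  have h3 : ∑ ω, z ω • (e (rep (cl ω)) : G Ω) = 0 := by
    have : ∑ ω, z ω • (e (rep (cl ω)) : G Ω) = ∑ q, par cl z q • (e (rep q) : G Ω) := by
      simp only [par, Finset.sum_smul]
      rw [← Finset.sum_fiberwise (s := univ) (g := cl)]
      refine Finset.sum_congr rfl fun q _ => Finset.sum_congr rfl fun ω hω => ?_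
      rw [(Finset.mem_filter.mp hω).2]
    rw [this]
    exact Finset.sum_eq_zero fun q _ => by rw [hz q, zero_smul]
  rw [h3, add_zero] at h1
  rw [h1]
  refine Tr.sum _ _ fun ω _ => ?_
  rcases zmod2_cases (z ω) with h | h
  · rw [h, zero_smul]; exact Tr.zero f
  · rw [h, one_smul]; exact hrep ω

theorem main_protocol (f : G Ω → Bool)
    (hf : ∀ (γ : colPerm col) (x : G Ω), f (fun ω => x (γ • ω)) = f x) (M : ℕ)
    (hM : (M + 1).Prime) (n : ℕ) (hMn : M = 2 * n)
    (hs : (spec (fun x => if f x then (1 : ℝ) else 0)).card < 2 ^ M) (k : ℕ) (A : Ω → Finset V)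
    (hA : ∀ ω, (A ω).card ≤ k ∧
      ∀ γ : colPerm col, (∀ v ∈ A ω, (γ : Equiv.Perm V) v = v) → γ • ω = ω) (d : ℕ)
    (hd : (spec (fun x => if f x then (1 : ℝ) else 0)).card ≤ 2 ^ d) :
    ∃ π : Protocol (G Ω) (G Ω), (∀ x y, π.eval x y = f (x + y)) ∧
      π.cost ≤ 1 + Nat.card (MulAction.orbitRel.Quotient (colPerm col) Ω) *
        (max (k * (4 * M + d + 5)) 1) ^ k := by
  classical
  set L := k * (4 * M + d + 5) with hL
  set F : G Ω → ℝ := fun x => if f x then (1 : ℝ) else 0 with hF
  have h01 : ∀ x, F x = 0 ∨ F x = 1 := by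
    intro x
    by_cases h : f x = true
    · right; simp [hF, h]
    · left; simp [hF, h]
  have hFinv : ∀ (γ : colPerm col) (x : G Ω), F (act γ x) = F x := by
    intro γ x
    simp only [hF]
    have : f (act γ x) = f x := hf γ⁻¹ x
    rw [this]
  have hFf : ∀ x x', F x = F x' → f x = f x' := by
    intro x x' h
    simp only [hF] at h
    by_cases h1 : f x = true <;> by_cases h2 : f x' = true <;> simp_all
  let Q := MulAction.orbitRel.Quotient (bigGroup col L) Ω
  let cl : Ω → Q := fun ω => Quotient.mk _ ω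
  let rep : Q → Ω := Quotient.out
  have hrep : ∀ ω, Tr F (e ω + e (rep (cl ω))) := by
    intro ω
    have h1 : (MulAction.orbitRel (bigGroup col L) Ω).r (rep (cl ω)) ω :=
      Quotient.mk_out (s := MulAction.orbitRel (bigGroup col L) Ω) ω
    obtain ⟨⟨g, hg⟩, hgω⟩ := h1
    have h2 : g • ω = rep (cl ω) := hgω
    rw [← h2]
    exact big_translation col F h01 hFinv M hM n hMn hs k A hA d hd g hg ω
  let m := Nat.card Q
  have : Finite Q := inferInstanceAs (Finite (Quotient _))
  have : Fintype Q := Fintype.ofFinite Q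
  let eq : Q ≃ Fin m := Finite.equivFin Q
  let lab : G Ω → Fin m → Bool := fun x i => decide (par cl x (eq.symm i) = 1)
  have hlab : ∀ x x', lab x = lab x' → ∀ y, f (x + y) = f (x' + y) := by
    intro x x' hxx y
    have hpar : ∀ q, par cl (x + x') q = 0 := by
      intro q
      have h1 := congrFun hxx (eq q)
      simp only [lab, Equiv.symm_apply_apply, decide_eq_decide] at h1
      rw [par_add]
      rcases zmod2_cases (par cl x q) with h2 | h2 <;> rcases zmod2_cases (par cl x' q) with h3 | h3
      · rw [h2, h3]; decide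
      · rw [h2, h3] at h1; simp at h1
      · rw [h2, h3] at h1; simp at h1
      · rw [h2, h3]; decide
    have htr := tr_of_par cl rep F hrep (x + x') hpar
    apply hFf
    have h4 := htr (x' + y)
    have h5 : x' + y + (x + x') = x + y := by
      have h6 := add_self x'
      calc x' + y + (x + x') = (x' + x') + (x + y) := by abel
        _ = x + y := by rw [h6, zero_add]
    rw [h5] at h4
    exact h4
  obtain ⟨π, h1, h2⟩ := protocol_of_label (fun x y : G Ω => f (x + y)) m lab hlab
  refine ⟨π, h2, le_trans h1 ?_⟩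
  exact Nat.add_le_add_left (orbit_bound col L k A hA) 1

/-- The final bound. -/
theorem final (f : G Ω → Bool)
    (hf : ∀ (γ : colPerm col) (x : G Ω), f (fun ω => x (γ • ω)) = f x) (k : ℕ)
    (hk : ∀ ω : Ω, ∃ A : Finset V, A.card ≤ k ∧
      ∀ γ : colPerm col, (∀ v ∈ A, (γ : Equiv.Perm V) v = v) → γ • ω = ω) :
    ∃ π : Protocol (G Ω) (G Ω), (∀ x y, π.eval x y = f (x + y)) ∧
      (π.cost : ℝ) ≤ 1 + Nat.card (MulAction.orbitRel.Quotient (colPerm col) Ω) *
        (9 * k * (2 + Real.logb 2 (realRank fun x y : G Ω => f (x + y)))) ^ k := by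
  classical
  choose A hA using hk
  set s := (spec (fun x => if f x then (1 : ℝ) else 0)).card with hsdef
  set D := Nat.log 2 s with hD
  have hsD : s < 2 ^ (D + 1) := Nat.lt_pow_succ_log_self (by norm_num) s
  obtain ⟨p, hp, hp1, hp2⟩ := Nat.exists_prime_lt_and_le_two_mul (D + 2) (by omega)
  have hodd : Odd p := hp.odd_of_ne_two (by omega)
  obtain ⟨n, hn⟩ := hodd
  have hM : (2 * n + 1).Prime := by rw [← hn]; exact hp
  obtain ⟨π, h1, h2⟩ := main_protocol col f hf (2 * n) hM n rfl
    (lt_of_lt_of_le hsD (Nat.pow_le_pow_right (by norm_num) (by omega))) k A hA (D + 1) hsD.le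
  refine ⟨π, h1, ?_⟩
  have hrank : s ≤ realRank fun x y : G Ω => f (x + y) := by
    have := spec_le_rank (fun x : G Ω => if f x then (1 : ℝ) else 0)
    exact this
  have hlog : (D : ℝ) ≤ Real.logb 2 (realRank fun x y : G Ω => f (x + y)) := by
    by_cases hs0 : s = 0
    · have : D = 0 := by rw [hD, hs0]; simp
      rw [this]
      simp only [Nat.cast_zero]
      by_cases hr : realRank (fun x y : G Ω => f (x + y)) = 0
      · rw [hr]; simp
      · exact Real.logb_nonneg (by norm_num) (by exact_mod_cast Nat.one_le_iff_ne_zero.mpr hr)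
    · rw [Real.le_logb_iff_rpow_le (by norm_num)
        (by exact_mod_cast lt_of_lt_of_le (Nat.pos_of_ne_zero hs0) hrank), Real.rpow_natCast]
      have h3 : 2 ^ D ≤ s := Nat.pow_log_le_self 2 hs0
      exact_mod_cast le_trans h3 hrank
  set R := Real.logb 2 (realRank fun x y : G Ω => f (x + y)) with hR
  have hR0 : 0 ≤ R := le_trans (Nat.cast_nonneg _) hlog
  have hbase : (((max (k * (4 * (2 * n) + (D + 1) + 5)) 1) ^ k : ℕ) : ℝ) ≤ (9 * k * (2 + R)) ^ k := by
    rcases Nat.eq_zero_or_pos k with hk0 | hk0
    · subst hk0; simp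
    · push_cast
      apply pow_le_pow_left₀ (by positivity)
      have hk1 : (1 : ℝ) ≤ k := by exact_mod_cast hk0
      apply max_le
      · have h5 : ((2 * n : ℕ) : ℝ) ≤ 2 * D + 3 := by
          have : 2 * n ≤ 2 * D + 3 := by omega
          exact_mod_cast this
        push_cast at h5
        have h6 : (4 * (2 * (n : ℝ)) + ((D : ℝ) + 1) + 5) ≤ 9 * (2 + R) := by linarith
        calc (k : ℝ) * (4 * (2 * (n : ℝ)) + ((D : ℝ) + 1) + 5) ≤ k * (9 * (2 + R)) :=
              mul_le_mul_of_nonneg_left h6 (by positivity)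
          _ = 9 * k * (2 + R) := by ring
      · nlinarith
  have h2' : (π.cost : ℝ) ≤ 1 + Nat.card (MulAction.orbitRel.Quotient (colPerm col) Ω) *
      (((max (k * (4 * (2 * n) + (D + 1) + 5)) 1) ^ k : ℕ) : ℝ) := by exact_mod_cast h2
  refine le_trans h2' ?_
  have := mul_le_mul_of_nonneg_left hbase
    (Nat.cast_nonneg (α := ℝ) (Nat.card (MulAction.orbitRel.Quotient (colPerm col) Ω)))
  linarith

end Pool.Agent.Lib_helper78.LR
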