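import Mathlib

/-!
Elementary Fourier analysis on `F_2^Ω`: sparse functions.
-/

set_option autoImplicit false
set_option linter.unusedSectionVars false
set_option linter.unusedSimpArgs false

namespace Pool.Agent.Lib_helper78.LR

open Finset

/-- the vector space `F_2^Ω` -/
abbrev G (Ω : Type) : Type := Ω → ZMod 2

/-- sign of an element of `ZMod 2` -/
def sg (a : ZMod 2) : ℝ := if a = 0 then 1 else -1

theorem zmod2_cases (a : ZMod 2) : a = 0 ∨ a = 1 := by
  revert a; decide

theorem sg_add (a b : ZMod 2) : sg (a + b) = sg a * sg b := by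
  rcases zmod2_cases a with rfl | rfl <;> rcases zmod2_cases b with rfl | rfl
  · simp [sg]
  · simp [sg]
  · simp [sg]
  · have : (1 : ZMod 2) + 1 = 0 := by decide
    simp [sg, this]

theorem sg_zero : sg 0 = 1 := by simp [sg]

theorem sg_one : sg 1 = -1 := by simp [sg]

theorem sg_mul_self (a : ZMod 2) : sg a * sg a = 1 := by
  rcases zmod2_cases a with rfl | rfl <;> simp [sg]

theorem sg_ne_zero (a : ZMod 2) : sg a ≠ 0 := by
  rcases zmod2_cases a with rfl | rfl <;> simp [sg]

variable {Ω : Type} [Fintype Ω] [DecidableEq Ω]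

theorem add_self (x : G Ω) : x + x = 0 := by
  funext ω
  simp only [Pi.add_apply, Pi.zero_apply]
  rcases zmod2_cases (x ω) with h | h <;> rw [h] <;> decide

omit [DecidableEq Ω] in
theorem neg_eq_self (x : G Ω) : -x = x := by
  funext ω
  simp only [Pi.neg_apply]
  rcases zmod2_cases (x ω) with h | h <;> rw [h] <;> decide

/-- the character of `a` -/
def chi (a x : G Ω) : ℝ := sg (∑ ω, a ω * x ω)

omit [DecidableEq Ω] in
theorem chi_comm (a x : G Ω) : chi a x = chi x a := by
  unfold chi
  congr 1
  exact Finset.sum_congr rfl (fun ω _ => mul_comm _ _)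

omit [DecidableEq Ω] in
theorem chi_add (a x y : G Ω) : chi a (x + y) = chi a x * chi a y := by
  unfold chi
  rw [← sg_add, ← Finset.sum_add_distrib]
  congr 1
  exact Finset.sum_congr rfl (fun ω _ => by simp [mul_add])

omit [DecidableEq Ω] in
theorem chi_zero (a : G Ω) : chi a 0 = 1 := by
  unfold chi
  simp [sg]

omit [DecidableEq Ω] in
theorem chi_add_left (a b x : G Ω) : chi (a + b) x = chi a x * chi b x := by
  rw [chi_comm, chi_add, chi_comm x a, chi_comm x b]

omit [DecidableEq Ω] in
theorem chi_mul_self (a x : G Ω) : chi a x * chi a x = 1 := sg_mul_self _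

omit [DecidableEq Ω] in
theorem chi_ne_zero (a x : G Ω) : chi a x ≠ 0 := sg_ne_zero _

/-- the unit vector at `ω` -/
def e (ω : Ω) : G Ω := Pi.single ω 1

theorem chi_e (a : G Ω) (ω : Ω) : chi a (e ω) = sg (a ω) := by
  unfold chi e
  congr 1
  rw [Finset.sum_eq_single ω]
  · simp
  · intro b _ hb
    simp [Pi.single_apply, hb]
  · intro h; exact absurd (Finset.mem_univ _) h

theorem sum_chi (x : G Ω) : ∑ a : G Ω, chi a x = if x = 0 then (2 : ℝ) ^ Fintype.card Ω else 0 := by
  split_ifs with h
  · subst h
    simp [chi_zero, Finset.card_univ, ZMod.card]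
  · obtain ⟨ω, hω⟩ : ∃ ω, x ω ≠ 0 := by
      by_contra hcon
      push Not at hcon
      exact h (funext hcon)
    have h1 : x ω = 1 := (zmod2_cases _).resolve_left hω
    have h2 : ∑ a : G Ω, chi a x = ∑ a : G Ω, chi (a + e ω) x :=
      (Fintype.sum_equiv (Equiv.addRight (e ω)) _ _ (fun a => rfl)).symm
    have h3 : ∀ a : G Ω, chi (a + e ω) x = -chi a x := by
      intro a
      rw [chi_add_left, chi_comm (e ω) x, chi_e, h1, sg_one]
      ring
    rw [Finset.sum_congr rfl (fun a _ => h3 a), Finset.sum_neg_distrib] at h2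
    linarith

/-- the (unnormalised) Fourier coefficient -/
noncomputable def coef (h : G Ω → ℝ) (a : G Ω) : ℝ := ∑ x, h x * chi a x

theorem inversion (h : G Ω → ℝ) (x : G Ω) :
    ∑ a, coef h a * chi a x = (2 : ℝ) ^ Fintype.card Ω * h x := by
  unfold coef
  have h1 : ∀ a : G Ω, (∑ y, h y * chi a y) * chi a x = ∑ y, h y * chi a (y + x) := by
    intro a
    rw [Finset.sum_mul]
    refine Finset.sum_congr rfl (fun y _ => ?_)
    rw [chi_add]; ring
  rw [Finset.sum_congr rfl (fun a _ => h1 a), Finset.sum_comm]
  have h2 : ∀ y : G Ω, ∑ a : G Ω, h y * chi a (y + x) =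
      if y = x then (2 : ℝ) ^ Fintype.card Ω * h x else 0 := by
    intro y
    rw [← Finset.mul_sum, sum_chi]
    by_cases hy : y = x
    · subst hy
      rw [add_self, if_pos rfl, if_pos rfl]; ring
    · have : y + x ≠ 0 := by
        intro h0
        apply hy
        have := eq_neg_of_add_eq_zero_left h0
        rw [this, neg_eq_self]
      rw [if_neg this, if_neg hy, mul_zero]
  rw [Finset.sum_congr rfl (fun y _ => h2 y)]
  simp

/-- the spectrum -/
noncomputable def spec (h : G Ω → ℝ) : Finset (G Ω) := univ.filter (fun a => coef h a ≠ 0)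

theorem mem_spec (h : G Ω → ℝ) (a : G Ω) : a ∈ spec h ↔ coef h a ≠ 0 := by
  simp [spec]

theorem spec_nonempty {h : G Ω → ℝ} (hh : h ≠ 0) : (spec h).Nonempty := by
  by_contra hcon
  rw [Finset.not_nonempty_iff_eq_empty] at hcon
  apply hh
  funext x
  have h1 := inversion h x
  have h2 : ∀ a : G Ω, coef h a = 0 := by
    intro a
    by_contra h3
    have : a ∈ spec h := (mem_spec h a).2 h3
    rw [hcon] at this
    simp at this
  rw [Finset.sum_eq_zero (fun a _ => by rw [h2 a, zero_mul])] at h1
  have h4 : (2 : ℝ) ^ Fintype.card Ω ≠ 0 := by positivity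
  have := (mul_eq_zero.mp h1.symm).resolve_left h4
  simpa using this

theorem coef_shift (h : G Ω → ℝ) (t a : G Ω) :
    coef (fun x => h (x + t)) a = chi a t * coef h a := by
  unfold coef
  rw [Finset.mul_sum]
  refine Fintype.sum_equiv (Equiv.addRight t) _ _ (fun x => ?_)
  simp only [Equiv.coe_addRight]
  rw [chi_add]
  have := chi_mul_self a t
  linear_combination (-(h (x + t)) * chi a x) * this

theorem coef_add (g h : G Ω → ℝ) (c : ℝ) (a : G Ω) :
    coef (fun x => g x + c * h x) a = coef g a + c * coef h a := by
  unfold coef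
  rw [Finset.mul_sum, ← Finset.sum_add_distrib]
  exact Finset.sum_congr rfl (fun x _ => by ring)

/-- number of nonzero coordinates -/
def wt (x : G Ω) : ℕ := (univ.filter (fun ω => x ω ≠ 0)).card

theorem wt_add_e (x : G Ω) (ω : Ω) : wt (x + e ω) ≤ wt x + 1 := by
  unfold wt
  have : univ.filter (fun ω' => (x + e ω) ω' ≠ 0) ⊆ insert ω (univ.filter (fun ω' => x ω' ≠ 0)) := by
    intro ω' h
    rw [Finset.mem_filter] at h
    rw [Finset.mem_insert, Finset.mem_filter]
    by_cases hω : ω' = ω
    · exact Or.inl hω
    · right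
      refine ⟨Finset.mem_univ _, ?_⟩
      have h1 := h.2
      simp only [Pi.add_apply, e, Pi.single_apply, if_neg hω, add_zero] at h1
      exact h1
  exact le_trans (Finset.card_le_card this) (Finset.card_insert_le _ _)

/-- A nonzero function with at most `2^d` characters is nonzero at a point of weight at most `d`. -/
theorem sparse_nonzero (d : ℕ) : ∀ h : G Ω → ℝ, h ≠ 0 → (spec h).card ≤ 2 ^ d →
    ∃ x : G Ω, wt x ≤ d ∧ h x ≠ 0 := by
  induction d with
  | zero =>
    intro h hh hc
    obtain ⟨a, ha⟩ := spec_nonempty hh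
    have h1 : spec h = {a} := by
      apply Finset.eq_singleton_iff_unique_mem.mpr
      refine ⟨ha, fun b hb => ?_⟩
      have : (spec h).card ≤ 1 := by simpa using hc
      exact Finset.card_le_one.mp this b hb a ha
    refine ⟨0, by simp [wt], ?_⟩
    intro h0
    have h2 := inversion h 0
    rw [h0, mul_zero] at h2
    have h3 : ∑ b, coef h b * chi b 0 = coef h a * chi a 0 := by
      apply Finset.sum_eq_single a
      · intro b _ hb
        have : b ∉ spec h := by rw [h1]; simpa using hb
        rw [mem_spec, not_not] at this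
        rw [this, zero_mul]
      · intro h; exact absurd (Finset.mem_univ _) h
    rw [h3, chi_zero, mul_one] at h2
    exact (mem_spec h a).1 ha h2
  | succ d ih =>
    intro h hh hc
    by_cases hsmall : (spec h).card ≤ 2 ^ d
    · obtain ⟨x, hx, hx'⟩ := ih h hh hsmall
      exact ⟨x, by omega, hx'⟩
    · have hone : 1 < (spec h).card := by
        have : 1 ≤ 2 ^ d := Nat.one_le_two_pow
        omega
      obtain ⟨a, ha, b, hb, hab⟩ := Finset.one_lt_card.mp hone
      obtain ⟨ω, hω⟩ : ∃ ω, a ω ≠ b ω := by
        by_contra hcon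
        push Not at hcon
        exact hab (funext hcon)
      have hspl := Finset.card_filter_add_card_filter_not (s := spec h) (fun c => c ω = 0)
      have key : ∀ ε : ℝ, ∀ P : Finset (G Ω), P.Nonempty → P.card ≤ 2 ^ d →
          (∀ c, c ∈ P ↔ coef h c * (1 + ε * sg (c ω)) ≠ 0) →
          ∃ x : G Ω, wt x ≤ d + 1 ∧ h x ≠ 0 := by
        intro ε P hP hPc hPm
        let h' : G Ω → ℝ := fun x => h x + ε * h (x + e ω)
        have hco : ∀ c, coef h' c = coef h c * (1 + ε * sg (c ω)) := by
          intro c
          simp only [h']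
          rw [coef_add h (fun x => h (x + e ω)) ε c, coef_shift, chi_e]
          ring
        have hsp : spec h' = P := by
          ext c
          rw [mem_spec, hco, hPm]
        have hne : h' ≠ 0 := by
          intro h0
          obtain ⟨c, hc⟩ := hP
          rw [← hsp, mem_spec] at hc
          apply hc
          rw [h0]
          simp [coef]
        obtain ⟨x, hx, hx'⟩ := ih h' hne (by rw [hsp]; exact hPc)
        by_cases h1 : h x = 0
        · refine ⟨x + e ω, le_trans (wt_add_e x ω) (by omega), ?_⟩
          intro h2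
          apply hx'
          simp only [h']
          rw [h1, h2]; ring
        · exact ⟨x, by omega, h1⟩
      have hP0 : ∀ c, c ∈ (spec h).filter (fun c => c ω = 0) ↔
          coef h c * (1 + 1 * sg (c ω)) ≠ 0 := by
        intro c
        rw [Finset.mem_filter, mem_spec]
        rcases zmod2_cases (c ω) with h1 | h1
        · rw [h1, sg_zero]
          constructor
          · rintro ⟨h2, _⟩
            exact mul_ne_zero h2 (by norm_num)
          · intro h2
            exact ⟨left_ne_zero_of_mul h2, rfl⟩
        · rw [h1, sg_one]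
          simp
      have hP1 : ∀ c, c ∈ (spec h).filter (fun c => ¬ c ω = 0) ↔
          coef h c * (1 + (-1) * sg (c ω)) ≠ 0 := by
        intro c
        rw [Finset.mem_filter, mem_spec]
        rcases zmod2_cases (c ω) with h1 | h1
        · rw [h1, sg_zero]
          simp
        · rw [h1, sg_one]
          constructor
          · rintro ⟨h2, _⟩
            exact mul_ne_zero h2 (by norm_num)
          · intro h2
            exact ⟨left_ne_zero_of_mul h2, by decide⟩
      have hne0 : ((spec h).filter (fun c => c ω = 0)).Nonempty := by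
        rcases zmod2_cases (a ω) with h1 | h1
        · exact ⟨a, Finset.mem_filter.mpr ⟨ha, h1⟩⟩
        · rcases zmod2_cases (b ω) with h2 | h2
          · exact ⟨b, Finset.mem_filter.mpr ⟨hb, h2⟩⟩
          · exact absurd (h1.trans h2.symm) hω
      have hne1 : ((spec h).filter (fun c => ¬ c ω = 0)).Nonempty := by
        rcases zmod2_cases (a ω) with h1 | h1
        · rcases zmod2_cases (b ω) with h2 | h2
          · exact absurd (h1.trans h2.symm) hω
          · exact ⟨b, Finset.mem_filter.mpr ⟨hb, by rw [h2]; decide⟩⟩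
        · exact ⟨a, Finset.mem_filter.mpr ⟨ha, by rw [h1]; decide⟩⟩
      rw [pow_succ] at hc
      by_cases hle : ((spec h).filter (fun c => c ω = 0)).card ≤ 2 ^ d
      · exact key 1 _ hne0 hle hP0
      · exact key (-1) _ hne1 (by omega) hP1

/-- The rank of `[h (x + y)]` is at least the number of characters. -/
theorem spec_le_rank (h : G Ω → ℝ) :
    (spec h).card ≤ (Matrix.of fun (x y : G Ω) => h (x + y)).rank := by
  set N : ℝ := (2 : ℝ) ^ Fintype.card Ω with hN
  have hN0 : N ≠ 0 := by positivity
  let H : Matrix (G Ω) (G Ω) ℝ := Matrix.of fun x a => chi a x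
  let A : Matrix (G Ω) (G Ω) ℝ := Matrix.of fun x y => h (x + y)
  -- `H A H = N • diagonal`
  have hHt : ∀ a b : G Ω, ∑ x : G Ω, chi a x * chi b x = if a = b then N else 0 := by
    intro a b
    have : ∀ x : G Ω, chi a x * chi b x = chi x (a + b) := by
      intro x
      rw [chi_add, chi_comm a x, chi_comm b x]
    rw [Finset.sum_congr rfl (fun x _ => this x), sum_chi]
    by_cases hab : a = b
    · subst hab
      rw [add_self, if_pos rfl, if_pos rfl]
    · have : a + b ≠ 0 := by
        intro h0
        apply hab
        have := eq_neg_of_add_eq_zero_left h0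
        rw [this, neg_eq_self]
      rw [if_neg this, if_neg hab]
  have hmul : H.transpose * A * H = Matrix.diagonal (fun a => N * coef h a) := by
    ext a b
    rw [Matrix.mul_apply]
    have h1 : ∀ y : G Ω, (H.transpose * A) a y = chi a y * coef h a := by
      intro y
      rw [Matrix.mul_apply]
      simp only [H, A, Matrix.transpose_apply, Matrix.of_apply]
      unfold coef
      rw [Finset.mul_sum]
      refine Fintype.sum_equiv (Equiv.addRight y) _ _ (fun x => ?_)
      simp only [Equiv.coe_addRight]
      rw [chi_add]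
      have := chi_mul_self a y
      linear_combination (-(h (x + y)) * chi a x) * this
    rw [Finset.sum_congr rfl (fun y _ => by rw [h1 y])]
    simp only [H, Matrix.of_apply]
    have h2 : ∑ y : G Ω, chi a y * coef h a * chi b y = coef h a * ∑ y : G Ω, chi a y * chi b y := by
      rw [Finset.mul_sum]
      exact Finset.sum_congr rfl (fun y _ => by ring)
    rw [h2, hHt, Matrix.diagonal_apply]
    split_ifs with hab
    · ring
    · ring
  have hr : (Matrix.diagonal (fun a => N * coef h a)).rank = (spec h).card := by
    rw [Matrix.rank_diagonal]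
    rw [Fintype.card_subtype]
    congr 1
    ext a
    simp [mem_spec, hN0]
  rw [← hr, ← hmul]
  exact le_trans (Matrix.rank_mul_le_left _ _) (Matrix.rank_mul_le_right _ _)

end Pool.Agent.Lib_helper78.LR
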