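import Pool.Agent.Lib_helper78.LR.Core

/-!
Cancelling and merging copies.
-/

set_option autoImplicit false
set_option linter.unusedSectionVars false

namespace Pool.Agent.Lib_helper78.LR

open Finset

variable {Ω : Type} [Fintype Ω] [DecidableEq Ω] {Γ : Type} [Group Γ] [MulAction Γ Ω]
variable {J : Type} [Fintype J] [DecidableEq J]

/-- `X` is fixed by the permutations of `J` that are supported on `S` -/
def FixOff (ρ : Equiv.Perm J →* Γ) (S : Finset J) (X : G Ω) : Prop :=
  ∀ π : Equiv.Perm J, (∀ j, j ∉ S → π j = j) → act (ρ π) X = X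

/-- a family of copies -/
def Copies (ρ : Equiv.Perm J →* Γ) (c : J → G Ω) : Prop :=
  ∀ (π : Equiv.Perm J) (j : J), act (ρ π) (c j) = c (π j)

/-- flips within the pairs -/
def flip {M : ℕ} (T : Fin M → Bool) : Equiv.Perm (Fin M × Bool) where
  toFun q := (q.1, xor q.2 (T q.1))
  invFun q := (q.1, xor q.2 (T q.1))
  left_inv q := by
    rcases q with ⟨i, ε⟩
    simp only [Prod.mk.injEq, true_and]
    cases ε <;> cases T i <;> rfl
  right_inv q := by
    rcases q with ⟨i, ε⟩
    simp only [Prod.mk.injEq, true_and]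
    cases ε <;> cases T i <;> rfl

theorem exists_perm_pair {S : Finset J} {j₁ j₂ j j' : J} (h₁ : j₁ ∈ S) (h₂ : j₂ ∈ S) (hj : j ∈ S)
    (hj' : j' ∈ S) (h12 : j₁ ≠ j₂) (hjj : j ≠ j') :
    ∃ π : Equiv.Perm J, (∀ i, i ∉ S → π i = i) ∧ π j₁ = j ∧ π j₂ = j' := by
  refine ⟨Equiv.swap (Equiv.swap j₁ j j₂) j' * Equiv.swap j₁ j, ?_, ?_, ?_⟩
  · intro i hi
    have hm : Equiv.swap j₁ j j₂ ∈ S := by
      rw [Equiv.swap_apply_def]
      split_ifs <;> assumption
    have e1 : i ≠ j₁ := fun h => hi (h ▸ h₁)
    have e2 : i ≠ j := fun h => hi (h ▸ hj)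
    have e3 : i ≠ j' := fun h => hi (h ▸ hj')
    have e4 : i ≠ Equiv.swap j₁ j j₂ := fun h => hi (h ▸ hm)
    rw [Equiv.Perm.mul_apply, Equiv.swap_apply_of_ne_of_ne e1 e2,
      Equiv.swap_apply_of_ne_of_ne e4 e3]
  · rw [Equiv.Perm.mul_apply, Equiv.swap_apply_left]
    apply Equiv.swap_apply_of_ne_of_ne _ hjj
    intro h
    have : Equiv.swap j₁ j j₂ = Equiv.swap j₁ j j₁ := by rw [Equiv.swap_apply_left]; exact h.symm
    exact h12 ((Equiv.swap j₁ j).injective this).symm
  · rw [Equiv.Perm.mul_apply, Equiv.swap_apply_left]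

theorem cancel_two (f : G Ω → ℝ) (h01 : ∀ x, f x = 0 ∨ f x = 1)
    (hf : ∀ (γ : Γ) (x : G Ω), f (act γ x) = f x) (M : ℕ) (hM : (M + 1).Prime)
    (hs : (spec f).card < 2 ^ M) (ρ : Equiv.Perm J →* Γ) (c : J → G Ω) (hc : Copies ρ c)
    (S : Finset J) (hS : 2 * M ≤ S.card) (X : G Ω) (hX : FixOff ρ S X) (j j' : J) (hj : j ∈ S)
    (hj' : j' ∈ S) (hjj : j ≠ j') : f (X + c j + c j') = f X := by
  have hM1 : 1 ≤ M := by
    have := hM.two_le; omega
  obtain ⟨p0⟩ : Nonempty (Fin M × Bool ↪ {j // j ∈ S}) := by
    apply Function.Embedding.nonempty_of_card_le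
    rw [Fintype.card_prod, Fintype.card_fin, Fintype.card_bool, Fintype.card_coe]
    omega
  let p : Fin M × Bool ↪ J := p0.trans (Function.Embedding.subtype _)
  have hpS : ∀ q, p q ∈ S := fun q => (p0 q).2
  have hvia : ∀ (τ : Equiv.Perm (Fin M × Bool)), (∀ i, i ∉ S → (τ.viaEmbedding p) i = i) ∧
      ∀ q, (τ.viaEmbedding p) (p q) = p (τ q) := by
    intro τ
    refine ⟨fun i hi => ?_, fun q => Equiv.Perm.viaEmbedding_apply τ p q⟩
    apply Equiv.Perm.viaEmbedding_apply_of_notMem
    rintro ⟨q, rfl⟩
    exact hi (hpS q)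
  have key := lemma_one f h01 hf M hM hs X (fun q => c (p q))
    (by
      intro σ
      obtain ⟨h1, h2⟩ := hvia (Equiv.prodCongr σ (Equiv.refl Bool))
      refine ⟨ρ (Equiv.Perm.viaEmbedding (Equiv.prodCongr σ (Equiv.refl Bool)) p), hX _ h1,
        fun i ε => ?_⟩
      rw [hc, h2]
      rfl)
    (by
      intro T
      obtain ⟨h1, h2⟩ := hvia (flip T)
      refine ⟨ρ ((flip T).viaEmbedding p), fun i ε => ?_⟩
      rw [hc, h2]
      rfl)
    {⟨0, hM1⟩}
  rw [Finset.sum_singleton] at key
  set j₁ := p (⟨0, hM1⟩, false) with hj₁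
  set j₂ := p (⟨0, hM1⟩, true) with hj₂
  have h12 : j₁ ≠ j₂ := by
    intro h
    have := p.injective h
    simp at this
  obtain ⟨π, hπ, hπ1, hπ2⟩ := exists_perm_pair (S := S) (hpS _) (hpS _) hj hj' h12 hjj
  have h3 : act (ρ π) (X + (c j₁ + c j₂)) = X + c j + c j' := by
    rw [act_add, act_add, hX π hπ, hc, hc, hπ1, hπ2, add_assoc]
  rw [← h3, hf]
  exact key

theorem cancel_even (f : G Ω → ℝ) (h01 : ∀ x, f x = 0 ∨ f x = 1)
    (hf : ∀ (γ : Γ) (x : G Ω), f (act γ x) = f x) (M : ℕ) (hM : (M + 1).Prime)
    (hs : (spec f).card < 2 ^ M) (ρ : Equiv.Perm J →* Γ) (c : J → G Ω) (hc : Copies ρ c) (n : ℕ) :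
    ∀ (E S : Finset J) (X : G Ω), E ⊆ S → E.card = 2 * n → 2 * n + 2 * M ≤ S.card →
      FixOff ρ S X → f (X + ∑ j ∈ E, c j) = f X := by
  induction n with
  | zero =>
    intro E S X _ hE _ _
    have : E = ∅ := Finset.card_eq_zero.mp (by simpa using hE)
    rw [this]; simp
  | succ n ih =>
    intro E S X hES hE hS hX
    obtain ⟨j, hj⟩ : E.Nonempty := by
      rw [← Finset.card_pos]; omega
    obtain ⟨j', hj'⟩ : (E.erase j).Nonempty := by
      rw [← Finset.card_pos, Finset.card_erase_of_mem hj]; omega
    set E' := (E.erase j).erase j' with hE'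
    have hcard : E'.card = 2 * n := by
      rw [hE', Finset.card_erase_of_mem hj', Finset.card_erase_of_mem hj]; omega
    have hjj : j ≠ j' := (Finset.ne_of_mem_erase hj').symm
    have hj'E : j' ∈ E := Finset.mem_of_mem_erase hj'
    have hsum : ∑ i ∈ E, c i = (∑ i ∈ E', c i) + c j + c j' := by
      rw [← Finset.add_sum_erase E c hj, ← Finset.add_sum_erase (E.erase j) c hj']
      abel
    have hE'S : E' ⊆ S := fun i hi =>
      hES (Finset.mem_of_mem_erase (Finset.mem_of_mem_erase hi))
    have hfix : FixOff ρ (S \ E') (X + ∑ i ∈ E', c i) := by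
      intro π hπ
      rw [act_add, act_sum, hX π (fun i hi => hπ i (fun h => hi (Finset.mem_sdiff.mp h).1))]
      congr 1
      refine Finset.sum_congr rfl (fun i hi => ?_)
      rw [hc, hπ i (fun h => (Finset.mem_sdiff.mp h).2 hi)]
    have hc2 : 2 * M ≤ (S \ E').card := by
      rw [Finset.card_sdiff_of_subset hE'S, hcard]; omega
    have hjS : j ∈ S \ E' := by
      rw [Finset.mem_sdiff]
      refine ⟨hES hj, fun h => ?_⟩
      exact absurd rfl (Finset.ne_of_mem_erase (Finset.mem_of_mem_erase h))
    have hj'S : j' ∈ S \ E' := by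
      rw [Finset.mem_sdiff]
      exact ⟨hES hj'E, fun h => absurd rfl (Finset.ne_of_mem_erase h)⟩
    have h1 := cancel_two f h01 hf M hM hs ρ c hc (S \ E') hc2 _ hfix j j' hjS hj'S hjj
    rw [hsum]
    have h2 : X + (∑ i ∈ E', c i + c j + c j') = X + ∑ i ∈ E', c i + c j + c j' := by abel
    rw [h2, h1]
    exact ih E' S X hE'S hcard (by omega) hX

theorem merge (f : G Ω → ℝ) (h01 : ∀ x, f x = 0 ∨ f x = 1)
    (hf : ∀ (γ : Γ) (x : G Ω), f (act γ x) = f x) (M : ℕ) (hM : (M + 1).Prime) (n : ℕ)
    (hMn : M = 2 * n) (hs : (spec f).card < 2 ^ M) (ρ : Equiv.Perm J →* Γ)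
    (hJ : 4 * M + 2 ≤ Fintype.card J) (a b : J → G Ω) (ha : Copies ρ a) (hb : Copies ρ b)
    (Y : G Ω) (hY : FixOff ρ univ Y) (j j' : J) (hjj : j ≠ j') :
    f (Y + a j + b j) = f (Y + a j + b j') := by
  have hM1 : 1 ≤ M := by
    have := hM.two_le; omega
  obtain ⟨p⟩ : Nonempty ((Fin M × Bool) ⊕ Bool ↪ J) := by
    apply Function.Embedding.nonempty_of_card_le
    rw [Fintype.card_sum, Fintype.card_prod, Fintype.card_fin, Fintype.card_bool]
    omega
  have hvia : ∀ (τ : Equiv.Perm ((Fin M × Bool) ⊕ Bool)) q,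
      (τ.viaEmbedding p) (p q) = p (τ q) := fun τ q => Equiv.Perm.viaEmbedding_apply τ p q
  let u : J := p (Sum.inr false)
  let v : J := p (Sum.inr true)
  let i0 : Fin M := ⟨0, hM1⟩
  let pf : Fin M → J := fun i => p (Sum.inl (i, false))
  let pt : Fin M → J := fun i => p (Sum.inl (i, true))
  have hYall : ∀ π : Equiv.Perm J, act (ρ π) Y = Y := fun π =>
    hY π (fun i hi => absurd (Finset.mem_univ i) hi)
  let y0 : G Ω := Y + a u + b v + ∑ i, (a (pf i) + b (pt i))
  have key := lemma_one f h01 hf M hM hs y0 (fun q => b (p (Sum.inl q)))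
    (by
      intro σ
      let τ : Equiv.Perm ((Fin M × Bool) ⊕ Bool) :=
        Equiv.sumCongr (Equiv.prodCongr σ (Equiv.refl Bool)) (Equiv.refl Bool)
      refine ⟨ρ (τ.viaEmbedding p), ?_, fun i ε => ?_⟩
      · have e1 : (τ.viaEmbedding p) u = u := hvia τ _
        have e2 : (τ.viaEmbedding p) v = v := hvia τ _
        have e3 : ∀ i, (τ.viaEmbedding p) (pf i) = pf (σ i) := fun i => hvia τ _
        have e4 : ∀ i, (τ.viaEmbedding p) (pt i) = pt (σ i) := fun i => hvia τ _
        simp only [y0]
        rw [act_add, act_add, act_add, act_sum, hYall, ha, hb, e1, e2]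
        congr 1
        refine Fintype.sum_equiv σ _ _ (fun i => ?_)
        rw [act_add, ha, hb, e3, e4]
      · rw [hb, hvia]
        rfl)
    (by
      intro T
      let τ : Equiv.Perm ((Fin M × Bool) ⊕ Bool) := Equiv.sumCongr (flip T) (Equiv.refl Bool)
      refine ⟨ρ (τ.viaEmbedding p), fun i ε => ?_⟩
      rw [hb, hvia]
      rfl)
    {i0}
  rw [Finset.sum_singleton] at key
  have hpinj := p.injective
  have hpf : Function.Injective pf := fun i i' h => by
    have := hpinj h; simpa using this
  have hpt : Function.Injective pt := fun i i' h => by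
    have := hpinj h; simpa using this
  have hfix_of : ∀ (S : Finset J) (w w' : J) (E : Finset J), w ∉ S → w' ∉ S → Disjoint E S →
      FixOff ρ S (Y + a w + b w' + ∑ i ∈ E, b i) := by
    intro S w w' E hw hw' hE π hπ
    rw [act_add, act_add, act_add, act_sum, hYall, ha, hb, hπ w hw, hπ w' hw']
    congr 1
    refine Finset.sum_congr rfl (fun i hi => ?_)
    rw [hb, hπ i (Finset.disjoint_left.mp hE hi)]
  have hfix_of' : ∀ (S : Finset J) (w w' : J), w ∉ S → w' ∉ S →
      FixOff ρ S (Y + a w + b w') := by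
    intro S w w' hw hw' π hπ
    rw [act_add, act_add, hYall, ha, hb, hπ w hw, hπ w' hw']
  -- general reduction
  have hred : ∀ (w w' : J) (Ea Eb : Finset J), Ea.card = M → Eb.card = M → Disjoint Ea Eb →
      w ∉ Ea → w ∉ Eb → w' ∉ Ea → w' ∉ Eb →
      f (Y + a w + b w' + ∑ i ∈ Eb, b i + ∑ i ∈ Ea, a i) = f (Y + a w + b w') := by
    intro w w' Ea Eb hEa hEb hdis h1 h2 h3 h4
    have hcardU : ∀ T : Finset J, (univ \ T).card = Fintype.card J - T.card := by
      intro T
      rw [Finset.card_sdiff_of_subset (Finset.subset_univ T), Finset.card_univ]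
    have hT1 : (insert w (insert w' Eb)).card ≤ M + 2 := by
      calc (insert w (insert w' Eb)).card ≤ (insert w' Eb).card + 1 := Finset.card_insert_le _ _
        _ ≤ Eb.card + 1 + 1 := Nat.add_le_add_right (Finset.card_insert_le _ _) 1
        _ = M + 2 := by rw [hEb]
    have hT2 : (insert w ({w'} : Finset J)).card ≤ 2 := Finset.card_le_two
    have s1 := cancel_even f h01 hf M hM hs ρ a ha n Ea (univ \ (insert w (insert w' Eb)))
      (Y + a w + b w' + ∑ i ∈ Eb, b i) (by
        intro i hi
        rw [Finset.mem_sdiff, Finset.mem_insert, Finset.mem_insert]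
        refine ⟨Finset.mem_univ _, ?_⟩
        rintro (h | h | h)
        · exact h1 (h ▸ hi)
        · exact h3 (h ▸ hi)
        · exact Finset.disjoint_left.mp hdis hi h) (by omega) (by
        rw [hcardU]; omega)
      (hfix_of _ w w' Eb (by simp) (by simp) (by
        rw [Finset.disjoint_left]
        intro i hi hi'
        rw [Finset.mem_sdiff, Finset.mem_insert, Finset.mem_insert] at hi'
        exact hi'.2 (Or.inr (Or.inr hi))))
    have s2 := cancel_even f h01 hf M hM hs ρ b hb n Eb (univ \ (insert w ({w'} : Finset J)))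
      (Y + a w + b w') (by
        intro i hi
        rw [Finset.mem_sdiff, Finset.mem_insert, Finset.mem_singleton]
        refine ⟨Finset.mem_univ _, ?_⟩
        rintro (h | h)
        · exact h2 (h ▸ hi)
        · exact h4 (h ▸ hi)) (by omega) (by
        rw [hcardU]; omega) (hfix_of' _ w w' (by simp) (by simp))
    rw [s1, s2]
  -- the right-hand side
  have hR : f y0 = f (Y + a u + b v) := by
    have e1 : y0 = Y + a u + b v + ∑ i ∈ univ.image pt, b i + ∑ i ∈ univ.image pf, a i := by
      rw [Finset.sum_image (fun i _ i' _ h => hpt h), Finset.sum_image (fun i _ i' _ h => hpf h)]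
      simp only [y0]
      rw [Finset.sum_add_distrib]
      abel
    rw [e1]
    apply hred
    · rw [Finset.card_image_of_injective _ hpf]; simp
    · rw [Finset.card_image_of_injective _ hpt]; simp
    · rw [Finset.disjoint_left]
      intro i hi hi'
      rw [Finset.mem_image] at hi hi'
      obtain ⟨k, _, rfl⟩ := hi
      obtain ⟨k', _, hk'⟩ := hi'
      have := hpinj hk'
      simp at this
    · intro h
      rw [Finset.mem_image] at h
      obtain ⟨k, _, hk⟩ := h
      have := hpinj hk
      simp at this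
    · intro h
      rw [Finset.mem_image] at h
      obtain ⟨k, _, hk⟩ := h
      have := hpinj hk
      simp at this
    · intro h
      rw [Finset.mem_image] at h
      obtain ⟨k, _, hk⟩ := h
      have := hpinj hk
      simp at this
    · intro h
      rw [Finset.mem_image] at h
      obtain ⟨k, _, hk⟩ := h
      have := hpinj hk
      simp at this
  have hL : f (y0 + (b (p (Sum.inl (i0, false))) + b (p (Sum.inl (i0, true))))) =
      f (Y + a (pf i0) + b (pf i0)) := by
    have e1 : y0 + (b (p (Sum.inl (i0, false))) + b (p (Sum.inl (i0, true)))) =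
        Y + a (pf i0) + b (pf i0) + ∑ i ∈ insert v ((univ.erase i0).image pt), b i +
          ∑ i ∈ insert u ((univ.erase i0).image pf), a i := by
      rw [Finset.sum_insert, Finset.sum_insert, Finset.sum_image (fun i _ i' _ h => hpt h),
        Finset.sum_image (fun i _ i' _ h => hpf h)]
      · simp only [y0]
        rw [Finset.sum_add_distrib, ← Finset.add_sum_erase univ (fun i => a (pf i))
          (Finset.mem_univ i0), ← Finset.add_sum_erase univ (fun i => b (pt i))
          (Finset.mem_univ i0)]
        have hbb := add_self (b (pt i0))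
        have hre : Y + a u + b v + (a (pf i0) + ∑ x ∈ univ.erase i0, a (pf x) +
            (b (pt i0) + ∑ x ∈ univ.erase i0, b (pt x))) + (b (pf i0) + b (pt i0)) =
            Y + a (pf i0) + b (pf i0) + (b v + ∑ x ∈ univ.erase i0, b (pt x)) +
              (a u + ∑ x ∈ univ.erase i0, a (pf x)) + (b (pt i0) + b (pt i0)) := by abel
        exact hre.trans (by rw [hbb, add_zero])
      · intro h
        rw [Finset.mem_image] at h
        obtain ⟨k, _, hk⟩ := h
        have := hpinj hk
        simp at this
      · intro h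
        rw [Finset.mem_image] at h
        obtain ⟨k, _, hk⟩ := h
        have := hpinj hk
        simp at this
    rw [e1]
    apply hred
    · rw [Finset.card_insert_of_notMem, Finset.card_image_of_injective _ hpf,
        Finset.card_erase_of_mem (Finset.mem_univ _), Finset.card_univ, Fintype.card_fin]
      · omega
      · intro h
        rw [Finset.mem_image] at h
        obtain ⟨k, _, hk⟩ := h
        have := hpinj hk
        simp at this
    · rw [Finset.card_insert_of_notMem, Finset.card_image_of_injective _ hpt,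
        Finset.card_erase_of_mem (Finset.mem_univ _), Finset.card_univ, Fintype.card_fin]
      · omega
      · intro h
        rw [Finset.mem_image] at h
        obtain ⟨k, _, hk⟩ := h
        have := hpinj hk
        simp at this
    · rw [Finset.disjoint_left]
      intro i hi hi'
      rw [Finset.mem_insert, Finset.mem_image] at hi hi'
      rcases hi with rfl | ⟨k, _, rfl⟩
      · rcases hi' with h | ⟨k', _, h⟩
        · have := hpinj h; simp at this
        · have := hpinj h; simp at this
      · rcases hi' with h | ⟨k', _, h⟩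
        · have := hpinj h; simp at this
        · have := hpinj h; simp at this
    · intro h
      rw [Finset.mem_insert, Finset.mem_image] at h
      rcases h with h | ⟨k, hk, h⟩
      · have := hpinj h; simp at this
      · have := hpf h
        rw [this] at hk
        simp at hk
    · intro h
      rw [Finset.mem_insert, Finset.mem_image] at h
      rcases h with h | ⟨k, hk, h⟩
      · have := hpinj h; simp at this
      · have := hpinj h; simp at this
    · intro h
      rw [Finset.mem_insert, Finset.mem_image] at h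
      rcases h with h | ⟨k, hk, h⟩
      · have := hpinj h; simp at this
      · have := hpf h
        rw [this] at hk
        simp at hk
    · intro h
      rw [Finset.mem_insert, Finset.mem_image] at h
      rcases h with h | ⟨k, hk, h⟩
      · have := hpinj h; simp at this
      · have := hpinj h; simp at this
  have hmain : f (Y + a (pf i0) + b (pf i0)) = f (Y + a u + b v) := by
    rw [← hL, ← hR]; exact key
  -- transport
  have huv : u ≠ v := by
    intro h
    have := hpinj h
    simp at this
  obtain ⟨π, _, hπ1, hπ2⟩ := exists_perm_pair (S := univ) (Finset.mem_univ u) (Finset.mem_univ v)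
    (Finset.mem_univ j) (Finset.mem_univ j') huv hjj
  have e1 : act (ρ π) (Y + a u + b v) = Y + a j + b j' := by
    rw [act_add, act_add, hYall, ha, hb, hπ1, hπ2]
  have e2 : act (ρ (Equiv.swap (pf i0) j)) (Y + a (pf i0) + b (pf i0)) = Y + a j + b j := by
    rw [act_add, act_add, hYall, ha, hb, Equiv.swap_apply_left]
  rw [← e1, ← e2, hf, hf]
  exact hmain

end Pool.Agent.Lib_helper78.LR
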